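import Mathlib

/-!
Definitions for the conformal type of hyperbolic affine spheres over convex cones in
three-space.  A surface diffeomorphic to the plane is parametrised by `ℂ`, viewed as a real
surface, with the coordinate directions `1` and `I`.
-/

namespace Pool.Agent.T2h53.AS

open Set Filter Topology

/-- Affine three-space. -/
abbrev V3 : Type := Fin 3 → ℝ

/-- The standard determinant (volume form) of three vectors. -/
def det3 (a b c : V3) : ℝ := Matrix.det (Matrix.of ![a, b, c])

/-- First derivative of `f` at `p` in direction `v`. -/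
noncomputable def D1 (f : ℂ → V3) (p v : ℂ) : V3 := fderiv ℝ f p v

/-- Second derivative of `f` at `p` in directions `v`, `w`. -/
noncomputable def D2 (f : ℂ → V3) (p v w : ℂ) : V3 :=
  fderiv ℝ (fun q => fderiv ℝ f q w) p v

/-- The induced volume form of the surface `f` with transversal field `ξ`, evaluated on the
coordinate frame. -/
noncomputable def vol (f ξ : ℂ → V3) (p : ℂ) : ℝ :=
  det3 (D1 f p 1) (D1 f p Complex.I) (ξ p)

/-- The affine fundamental form of the surface `f` with transversal field `ξ`: the coefficient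
of `ξ` in the second derivative of `f`, with respect to the frame `(f_1, f_I, ξ)`. -/
noncomputable def fundForm (f ξ : ℂ → V3) (p v w : ℂ) : ℝ :=
  det3 (D1 f p 1) (D1 f p Complex.I) (D2 f p v w) / vol f ξ p

/-- `ξ` is an affine (Blaschke) normal field of the smooth immersed surface `f`: it is smooth and
transversal, its derivatives are tangential, and the induced volume form is the volume form of
the affine fundamental form. -/
structure IsAffineNormal (f ξ : ℂ → V3) : Prop where
  smooth : ContDiff ℝ ((⊤ : ℕ∞) : WithTop ℕ∞) f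
  smooth_normal : ContDiff ℝ ((⊤ : ℕ∞) : WithTop ℕ∞) ξ
  transversal : ∀ p, vol f ξ p ≠ 0
  equiaffine : ∀ p v, det3 (D1 f p 1) (D1 f p Complex.I) (D1 ξ p v) = 0
  volume : ∀ p, |fundForm f ξ p 1 1 * fundForm f ξ p Complex.I Complex.I
      - fundForm f ξ p 1 Complex.I ^ 2| = vol f ξ p ^ 2

/-- The transversal field `-H (f - c)`. -/
noncomputable def centralField (f : ℂ → V3) (c : V3) (H : ℝ) (p : ℂ) : V3 := (-H) • (f p - c)

/-- The Blaschke metric of a hyperbolic affine sphere with center `c` and affine mean
curvature `H`. -/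
noncomputable def blaschke (f : ℂ → V3) (c : V3) (H : ℝ) : ℂ → ℂ → ℂ → ℝ :=
  fundForm f (centralField f c H)

/-- `f` is a hyperbolic affine sphere with center `c` and affine mean curvature `H < 0`: its
affine normal is `-H (f - c)` and its Blaschke metric is positive definite. -/
structure IsHyperbolicAffineSphere (f : ℂ → V3) (c : V3) (H : ℝ) : Prop where
  neg : H < 0
  normal : IsAffineNormal f (centralField f c H)
  posDef : ∀ p v, v ≠ 0 → 0 < blaschke f c H p v v

/-- Completeness of a metric `h` on `ℂ`: every continuously differentiable curve with finite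
length converges. -/
def IsCompleteMetric (h : ℂ → ℂ → ℂ → ℝ) : Prop :=
  ∀ γ : ℝ → ℂ, ContDiff ℝ 1 γ →
    MeasureTheory.IntegrableOn (fun t => √(h (γ t) (deriv γ t) (deriv γ t))) (Set.Ioi 0) →
    ∃ p, Tendsto γ atTop (𝓝 p)

/-- `(ℂ, h)` is conformally equivalent to the complex plane: there is a diffeomorphism `φ` of
`ℂ` which pulls `h` back to a pointwise multiple of the euclidean metric. -/
def ConformalToPlane (h : ℂ → ℂ → ℂ → ℝ) : Prop :=
  ∃ φ : ℂ ≃ ℂ, ContDiff ℝ ((⊤ : ℕ∞) : WithTop ℕ∞) φ ∧
    ContDiff ℝ ((⊤ : ℕ∞) : WithTop ℕ∞) φ.symm ∧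
    ∀ z, h (φ z) (fderiv ℝ φ z 1) (fderiv ℝ φ z 1)
        = h (φ z) (fderiv ℝ φ z Complex.I) (fderiv ℝ φ z Complex.I) ∧
      h (φ z) (fderiv ℝ φ z 1) (fderiv ℝ φ z Complex.I) = 0

/-- The surface `S` is asymptotic to the boundary of the cone `K`: it is closed, lies in the
interior of `K`, meets every open ray in the interior exactly once, and its points approach the
boundary of `K` at infinity. -/
structure AsymptoticTo (S K : Set V3) : Prop where
  subset : S ⊆ interior K
  closed : IsClosed S
  ray : ∀ x ∈ interior K, ∃! t : ℝ, 0 < t ∧ t • x ∈ S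
  dist : Tendsto (fun x => Metric.infDist x (frontier K)) (cocompact V3 ⊓ 𝓟 S) (𝓝 0)

/-- `f` is a complete hyperbolic affine sphere with center `0` and affine mean curvature `H`,
asymptotic to the boundary of `K`. -/
structure IsSphereOver (f : ℂ → V3) (K : Set V3) (H : ℝ) : Prop where
  sphere : IsHyperbolicAffineSphere f 0 H
  injective : Function.Injective f
  complete : IsCompleteMetric (blaschke f 0 H)
  asymptotic : AsymptoticTo (range f) K

/-- Regular convex cones. -/
structure IsRegularCone (K : Set V3) : Prop where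
  closed : IsClosed K
  convex : Convex ℝ K
  cone : ∀ x ∈ K, ∀ t : ℝ, 0 ≤ t → t • x ∈ K
  solid : (interior K).Nonempty
  noLine : ∀ x v : V3, (∀ t : ℝ, x + t • v ∈ K) → v = 0

/-- `F` is a face of `K`. -/
structure IsFace (F K : Set V3) : Prop where
  subset : F ⊆ K
  convex : Convex ℝ F
  extreme : ∀ x ∈ K, ∀ y ∈ K, (1 / 2 : ℝ) • (x + y) ∈ F → x ∈ F ∧ y ∈ F

/-- Condition (i): each complete hyperbolic affine sphere asymptotic to the boundary of `K` is
conformally equivalent to the plane. -/
def SpheresPlanar (K : Set V3) : Prop :=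
  ∀ (H : ℝ) (f : ℂ → V3), IsSphereOver f K H → ConformalToPlane (blaschke f 0 H)

/-- Condition (ii): the 2-dimensional faces of `K` have dense union in the boundary of `K`. -/
def FacesDense (K : Set V3) : Prop :=
  ∀ x ∈ frontier K, x ∈ closure
    (⋃₀ {F : Set V3 | IsFace F K ∧ Module.finrank ℝ (Submodule.span ℝ F) = 2})

end Pool.Agent.T2h53.AS
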