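import Mathlib
import Pool.Agent.T2h53.AS.Defs

namespace Pool.Agent.T2h53.AS

open Set Filter Topology

/-- Scalar product. -/
def dot (a b : V3) : ℝ := a 0 * b 0 + a 1 * b 1 + a 2 * b 2

lemma dot_comm (a b : V3) : dot a b = dot b a := by unfold dot; ring

lemma dot_add (a b c : V3) : dot a (b + c) = dot a b + dot a c := by
  simp only [dot, Pi.add_apply]; ring

lemma dot_sub (a b c : V3) : dot a (b - c) = dot a b - dot a c := by
  simp only [dot, Pi.sub_apply]; ring

lemma dot_smul (a b : V3) (t : ℝ) : dot a (t • b) = t * dot a b := by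
  simp only [dot, Pi.smul_apply, smul_eq_mul]; ring

lemma add_dot (a b c : V3) : dot (a + b) c = dot a c + dot b c := by
  simp only [dot, Pi.add_apply]; ring

lemma sub_dot (a b c : V3) : dot (a - b) c = dot a c - dot b c := by
  simp only [dot, Pi.sub_apply]; ring

lemma smul_dot (a b : V3) (t : ℝ) : dot (t • a) b = t * dot a b := by
  simp only [dot, Pi.smul_apply, smul_eq_mul]; ring

lemma zero_dot (a : V3) : dot 0 a = 0 := by simp [dot]

lemma dot_zero (a : V3) : dot a 0 = 0 := by simp [dot]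

@[fun_prop]
lemma continuous_dot {X : Type*} [TopologicalSpace X] {a b : X → V3} (ha : Continuous a)
    (hb : Continuous b) : Continuous fun x => dot (a x) (b x) := by
  unfold dot; fun_prop

lemma abs_dot_le (a b : V3) : |dot a b| ≤ 3 * ‖a‖ * ‖b‖ := by
  unfold dot
  have ha := fun i => norm_le_pi_norm a i
  have hb := fun i => norm_le_pi_norm b i
  have h : ∀ i, |a i * b i| ≤ ‖a‖ * ‖b‖ := by
    intro i
    rw [abs_mul]
    exact mul_le_mul (ha i) (hb i) (abs_nonneg _) (norm_nonneg _)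
  calc |a 0 * b 0 + a 1 * b 1 + a 2 * b 2|
      ≤ |a 0 * b 0 + a 1 * b 1| + |a 2 * b 2| := abs_add_le _ _
    _ ≤ (|a 0 * b 0| + |a 1 * b 1|) + |a 2 * b 2| := by gcongr; exact abs_add_le _ _
    _ ≤ (‖a‖ * ‖b‖ + ‖a‖ * ‖b‖) + ‖a‖ * ‖b‖ := by gcongr <;> exact h _
    _ = 3 * ‖a‖ * ‖b‖ := by ring

lemma dot_self_pos {a : V3} (h : a ≠ 0) : 0 < dot a a := by
  by_contra hc
  push Not at hc
  apply h
  unfold dot at hc
  have h0 : a 0 = 0 := by nlinarith [sq_nonneg (a 0), sq_nonneg (a 1), sq_nonneg (a 2)]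
  have h1 : a 1 = 0 := by nlinarith [sq_nonneg (a 0), sq_nonneg (a 1), sq_nonneg (a 2)]
  have h2 : a 2 = 0 := by nlinarith [sq_nonneg (a 0), sq_nonneg (a 1), sq_nonneg (a 2)]
  ext i; fin_cases i <;> simp [h0, h1, h2]

lemma norm_le_sqrt {a : V3} : ‖a‖ ^ 2 ≤ dot a a := by
  have h : ∀ i, |a i| ^ 2 ≤ dot a a := by
    intro i
    unfold dot
    fin_cases i <;> simp only [sq_abs] <;>
      simp only [Fin.zero_eta, Fin.mk_one, Fin.reduceFinMk] <;>
      nlinarith [sq_nonneg (a 0), sq_nonneg (a 1), sq_nonneg (a 2)]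
  have hn : 0 ≤ dot a a := by
    unfold dot; nlinarith [sq_nonneg (a 0), sq_nonneg (a 1), sq_nonneg (a 2)]
  have : ‖a‖ ≤ √(dot a a) := by
    rw [pi_norm_le_iff_of_nonneg (Real.sqrt_nonneg _)]
    intro i
    rw [Real.norm_eq_abs]
    exact Real.le_sqrt_of_sq_le (h i)
  calc ‖a‖ ^ 2 ≤ (√(dot a a)) ^ 2 := by gcongr
    _ = dot a a := Real.sq_sqrt hn

/-- The dual cone. -/
def dualCone (A : Set V3) : Set V3 := {y | ∀ a ∈ A, 0 ≤ dot a y}

lemma mem_dualCone {A : Set V3} {y : V3} : y ∈ dualCone A ↔ ∀ a ∈ A, 0 ≤ dot a y := Iff.rfl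

lemma isClosed_dualCone (A : Set V3) : IsClosed (dualCone A) := by
  have : dualCone A = ⋂ a ∈ A, {y | 0 ≤ dot a y} := by
    ext y; simp [dualCone]
  rw [this]
  refine isClosed_biInter fun a _ => ?_
  exact isClosed_le continuous_const (by fun_prop)

lemma convex_dualCone (A : Set V3) : Convex ℝ (dualCone A) := by
  intro x hx y hy s t hs ht _ a ha
  rw [dot_add, dot_smul, dot_smul]
  have h1 := hx a ha
  have h2 := hy a ha
  positivity

lemma add_mem_dualCone {A : Set V3} {x y : V3} (hx : x ∈ dualCone A) (hy : y ∈ dualCone A) :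
    x + y ∈ dualCone A := by
  intro a ha
  rw [dot_add]
  exact add_nonneg (hx a ha) (hy a ha)

lemma smul_mem_dualCone {A : Set V3} {x : V3} (hx : x ∈ dualCone A) {t : ℝ} (ht : 0 ≤ t) :
    t • x ∈ dualCone A := by
  intro a ha
  rw [dot_smul]
  exact mul_nonneg ht (hx a ha)

lemma dualCone_triple (A : Set V3) : dualCone (dualCone (dualCone A)) = dualCone A := by
  apply Subset.antisymm
  · intro y hy a ha
    have : a ∈ dualCone (dualCone A) := by
      intro x hx
      rw [dot_comm]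
      exact hx a ha
    exact hy a this
  · intro y hy x hx
    rw [dot_comm]
    exact hx y hy

/-- A functional in the interior of the dual cone is strictly positive. -/
lemma dot_pos_of_mem_interior {K : Set V3} {φ x : V3} (hφ : φ ∈ interior (dualCone K))
    (hx : x ∈ K) (hx0 : x ≠ 0) : 0 < dot φ x := by
  obtain ⟨ε, hε, hb⟩ := Metric.isOpen_iff.1 isOpen_interior φ hφ
  have hxn : 0 < ‖x‖ := norm_pos_iff.2 hx0
  set δ := ε / (2 * ‖x‖) with hδ
  have hδ0 : 0 < δ := by positivity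
  have hmem : φ - δ • x ∈ dualCone K := by
    apply interior_subset
    apply hb
    rw [Metric.mem_ball, dist_eq_norm]
    have : φ - δ • x - φ = -(δ • x) := by abel
    rw [this, norm_neg, norm_smul, Real.norm_eq_abs, abs_of_pos hδ0, hδ]
    field_simp
    linarith
  have h1 := hmem x hx
  rw [dot_sub, dot_smul, dot_comm] at h1
  have h2 := dot_self_pos hx0
  nlinarith [mul_pos hδ0 h2]

/-- If a functional is strictly positive on a closed cone, then it is bounded below by a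
positive multiple of the norm. -/
lemma exists_lower_bound {K : Set V3} (hK : IsClosed K)
    (hc : ∀ x ∈ K, ∀ t : ℝ, 0 ≤ t → t • x ∈ K) {φ : V3}
    (h : ∀ x ∈ K, x ≠ 0 → 0 < dot φ x) : ∃ δ : ℝ, 0 < δ ∧ ∀ x ∈ K, δ * ‖x‖ ≤ dot φ x := by
  by_cases hne : (K ∩ Metric.sphere (0 : V3) 1).Nonempty
  · have hcomp : IsCompact (K ∩ Metric.sphere (0 : V3) 1) :=
      (isCompact_sphere (0 : V3) 1).inter_left hK
    obtain ⟨x0, hx0, hmin⟩ := hcomp.exists_isMinOn hne
      (f := fun x => dot φ x) (by fun_prop : Continuous fun x => dot φ x).continuousOn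
    have hx0n : x0 ≠ 0 := by
      rintro rfl
      simp at hx0
    refine ⟨dot φ x0, h x0 hx0.1 hx0n, fun x hx => ?_⟩
    by_cases hxz : x = 0
    · simp [hxz, dot_zero]
    · have hn : 0 < ‖x‖ := norm_pos_iff.2 hxz
      have hmem : ‖x‖⁻¹ • x ∈ K ∩ Metric.sphere (0 : V3) 1 := by
        refine ⟨hc x hx _ (by positivity), ?_⟩
        rw [mem_sphere_zero_iff_norm, norm_smul, norm_inv, norm_norm, inv_mul_cancel₀ hn.ne']
      have := hmin hmem
      simp only [mem_setOf_eq, dot_smul] at this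
      rw [inv_mul_eq_div, le_div_iff₀ hn] at this
      exact this
  · refine ⟨1, one_pos, fun x hx => ?_⟩
    by_cases hxz : x = 0
    · simp [hxz, dot_zero]
    · exfalso
      apply hne
      have hn : 0 < ‖x‖ := norm_pos_iff.2 hxz
      refine ⟨‖x‖⁻¹ • x, hc x hx _ (by positivity), ?_⟩
      rw [mem_sphere_zero_iff_norm, norm_smul, norm_inv, norm_norm, inv_mul_cancel₀ hn.ne']

/-- A functional strictly positive on a closed cone lies in the interior of the dual cone. -/
lemma mem_interior_dualCone {K : Set V3} (hK : IsClosed K)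
    (hc : ∀ x ∈ K, ∀ t : ℝ, 0 ≤ t → t • x ∈ K) {φ : V3}
    (h : ∀ x ∈ K, x ≠ 0 → 0 < dot φ x) : φ ∈ interior (dualCone K) := by
  obtain ⟨δ, hδ, hb⟩ := exists_lower_bound hK hc h
  rw [mem_interior_iff_mem_nhds, Metric.mem_nhds_iff]
  refine ⟨δ / 3, by positivity, fun ψ hψ x hx => ?_⟩
  rw [Metric.mem_ball, dist_eq_norm] at hψ
  have h1 := hb x hx
  have h2 := abs_dot_le (ψ - φ) x
  have h3 : dot ψ x = dot φ x + dot (ψ - φ) x := by rw [sub_dot]; ring
  have h4 : 3 * ‖ψ - φ‖ * ‖x‖ ≤ δ * ‖x‖ := by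
    have := norm_nonneg x
    have : 3 * ‖ψ - φ‖ ≤ δ := by linarith
    gcongr
  have h5 := neg_abs_le (dot (ψ - φ) x)
  rw [dot_comm x ψ]
  linarith

lemma mem_interior_dualCone_iff {K : Set V3} (hK : IsClosed K)
    (hc : ∀ x ∈ K, ∀ t : ℝ, 0 ≤ t → t • x ∈ K) {φ : V3} :
    φ ∈ interior (dualCone K) ↔ ∀ x ∈ K, x ≠ 0 → 0 < dot φ x :=
  ⟨fun h _ hx hx0 => dot_pos_of_mem_interior h hx hx0, mem_interior_dualCone hK hc⟩

end Pool.Agent.T2h53.AS
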