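import Mathlib
import Pool.Agent.T2h53.AS.Defs
import Pool.Agent.T2h53.AS.Convex

namespace Pool.Agent.T2h53.AS

open Set Filter Topology

/-- The smoothness exponent. -/
abbrev sm : WithTop ℕ∞ := ((⊤ : ℕ∞) : WithTop ℕ∞)

lemma two_le_sm : (1 + 1 : WithTop ℕ∞) ≤ sm := by
  have : ((2 : ℕ∞) : WithTop ℕ∞) ≤ sm := WithTop.coe_le_coe.2 le_top
  exact (by norm_num : (1 + 1 : WithTop ℕ∞) = ((2 : ℕ∞) : WithTop ℕ∞)).le.trans this

lemma two_le_sm' : (2 : WithTop ℕ∞) ≤ sm := by
  have := two_le_sm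
  norm_num at this
  exact this

lemma det3_eq (a b c : V3) : det3 a b c =
    (a 1 * b 2 - a 2 * b 1) * c 0 + (a 2 * b 0 - a 0 * b 2) * c 1
      + (a 0 * b 1 - a 1 * b 0) * c 2 := by
  unfold det3
  rw [Matrix.det_fin_three]
  simp [Matrix.of_apply]
  ring

/-- Cross product. -/
def crossV (a b : V3) : V3 :=
  ![a 1 * b 2 - a 2 * b 1, a 2 * b 0 - a 0 * b 2, a 0 * b 1 - a 1 * b 0]

lemma dot_crossV (a b c : V3) : dot (crossV a b) c = det3 a b c := by
  rw [det3_eq]; simp [dot, crossV]

lemma det3_add_right (a b c d : V3) : det3 a b (c + d) = det3 a b c + det3 a b d := by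
  simp only [det3_eq, Pi.add_apply]; ring

lemma det3_smul_right (a b c : V3) (t : ℝ) : det3 a b (t • c) = t * det3 a b c := by
  simp only [det3_eq, Pi.smul_apply, smul_eq_mul]; ring

lemma det3_self_left (a b : V3) : det3 a b a = 0 := by
  simp only [det3_eq]; ring

lemma det3_self_right (a b : V3) : det3 a b b = 0 := by
  simp only [det3_eq]; ring

/-- Product formula for determinants. -/
lemma det3_mul (a b c x y z : V3) : det3 a b c * det3 x y z =
    dot a x * (dot b y * dot c z - dot b z * dot c y)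
      - dot a y * (dot b x * dot c z - dot b z * dot c x)
      + dot a z * (dot b x * dot c y - dot b y * dot c x) := by
  simp only [det3_eq, dot]; ring

/-- The centroaffine volume density. -/
noncomputable def theta (f : ℂ → V3) (p : ℂ) : ℝ := det3 (D1 f p 1) (D1 f p Complex.I) (f p)

/-- The conormal field, normalised by `dot (nu f p) (f p) = 1`. -/
noncomputable def nu (f : ℂ → V3) (p : ℂ) : V3 :=
  (theta f p)⁻¹ • crossV (D1 f p 1) (D1 f p Complex.I)

lemma D1_eq (f : ℂ → V3) (p v : ℂ) :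
    D1 f p v = v.re • D1 f p 1 + v.im • D1 f p Complex.I := by
  unfold D1
  rw [← map_smul, ← map_smul, ← map_add]
  congr 1
  apply Complex.ext <;> simp

lemma det3_D1 (f : ℂ → V3) (p v : ℂ) : det3 (D1 f p 1) (D1 f p Complex.I) (D1 f p v) = 0 := by
  rw [D1_eq f p v, det3_add_right, det3_smul_right, det3_smul_right, det3_self_left,
    det3_self_right]
  ring

lemma dot_nu (f : ℂ → V3) (p : ℂ) (y : V3) :
    dot (nu f p) y = (theta f p)⁻¹ * det3 (D1 f p 1) (D1 f p Complex.I) y := by
  rw [nu, smul_dot, dot_crossV]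

lemma dot_nu_D1 (f : ℂ → V3) (p v : ℂ) : dot (nu f p) (D1 f p v) = 0 := by
  rw [dot_nu, det3_D1, mul_zero]

lemma dot_nu_self {f : ℂ → V3} {p : ℂ} (h : theta f p ≠ 0) : dot (nu f p) (f p) = 1 := by
  rw [dot_nu]
  exact inv_mul_cancel₀ h

section smooth

variable {f : ℂ → V3} (hf : ContDiff ℝ sm f)

include hf

lemma contDiff_D1 (v : ℂ) : ContDiff ℝ sm (fun p => D1 f p v) := by
  unfold D1
  exact (hf.fderiv_right (m := sm) (by simp)).clm_apply contDiff_const

lemma contDiff_D1' (v : ℂ) (i : Fin 3) : ContDiff ℝ sm (fun p => D1 f p v i) :=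
  (contDiff_pi.1 (contDiff_D1 hf v)) i

lemma contDiff_theta : ContDiff ℝ sm (theta f) := by
  have h1 := contDiff_D1' hf 1
  have hI := contDiff_D1' hf Complex.I
  have h0 := fun i => (contDiff_pi.1 hf) i
  have : theta f = fun p => (D1 f p 1 1 * D1 f p Complex.I 2 - D1 f p 1 2 * D1 f p Complex.I 1) * f p 0
      + (D1 f p 1 2 * D1 f p Complex.I 0 - D1 f p 1 0 * D1 f p Complex.I 2) * f p 1
      + (D1 f p 1 0 * D1 f p Complex.I 1 - D1 f p 1 1 * D1 f p Complex.I 0) * f p 2 := by
    ext p; exact det3_eq _ _ _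
  rw [this]
  have a := h1 0
  have b := h1 1
  have c := h1 2
  have a' := hI 0
  have b' := hI 1
  have c' := hI 2
  have a0 := h0 0
  have b0 := h0 1
  have c0 := h0 2
  fun_prop

lemma contDiff_nu (ht : ∀ p, theta f p ≠ 0) : ContDiff ℝ sm (nu f) := by
  have h1 := contDiff_D1' hf 1
  have hI := contDiff_D1' hf Complex.I
  have hθ : ContDiff ℝ sm (fun p => (theta f p)⁻¹) := (contDiff_theta hf).inv ht
  unfold nu
  apply hθ.smul
  rw [contDiff_pi]
  intro i
  have a := h1 0
  have b := h1 1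
  have c := h1 2
  have a' := hI 0
  have b' := hI 1
  have c' := hI 2
  fin_cases i <;> simp [crossV] <;> fun_prop

lemma D2_eq (p v w : ℂ) : D2 f p v w = (fderiv ℝ (fderiv ℝ f) p v) w := by
  unfold D2
  have h : DifferentiableAt ℝ (fderiv ℝ f) p :=
    ((hf.fderiv_right (m := 1) two_le_sm).differentiable (by simp)) p
  rw [fderiv_clm_apply h (differentiableAt_const w)]
  simp

lemma D2_symm (p v w : ℂ) : D2 f p v w = D2 f p w v := by
  rw [D2_eq hf, D2_eq hf]
  have h : IsSymmSndFDerivAt ℝ f p := (hf.contDiffAt).isSymmSndFDerivAt (by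
    simpa using two_le_sm')
  exact h v w

end smooth

lemma fderiv_dot {a b : ℂ → V3} {p : ℂ} (ha : DifferentiableAt ℝ a p)
    (hb : DifferentiableAt ℝ b p) (v : ℂ) :
    fderiv ℝ (fun q => dot (a q) (b q)) p v
      = dot (fderiv ℝ a p v) (b p) + dot (a p) (fderiv ℝ b p v) := by
  have ha' := fun i => (hasFDerivAt_pi'.1 ha.hasFDerivAt) i
  have hb' := fun i => (hasFDerivAt_pi'.1 hb.hasFDerivAt) i
  have h := (((ha' 0).mul (hb' 0)).add ((ha' 1).mul (hb' 1))).add ((ha' 2).mul (hb' 2))
  have e : (fun q => dot (a q) (b q)) = (((fun x => a x 0) * fun x => b x 0) +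
      (fun x => a x 1) * fun x => b x 1) + (fun x => a x 2) * fun x => b x 2 := by
    ext q; simp [dot]
  rw [e, h.fderiv]
  simp [dot]
  ring

/-- Differentiating a constant scalar product. -/
lemma dot_deriv_of_const {a b : ℂ → V3} {c : ℝ} (ha : Differentiable ℝ a)
    (hb : Differentiable ℝ b) (h : ∀ q, dot (a q) (b q) = c) (p v : ℂ) :
    dot (fderiv ℝ a p v) (b p) = - dot (a p) (fderiv ℝ b p v) := by
  have h1 := fderiv_dot (ha p) (hb p) v
  have h2 : (fun q => dot (a q) (b q)) = fun _ => c := funext h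
  rw [h2] at h1
  simp at h1
  linarith

section duality

variable {f : ℂ → V3} (hf : ContDiff ℝ sm f) (ht : ∀ p, theta f p ≠ 0)

include hf ht

lemma D1_nu_dot (p v : ℂ) : dot (D1 (nu f) p v) (f p) = 0 := by
  have h := dot_deriv_of_const (c := 1) ((contDiff_nu hf ht).differentiable (by simp))
    (hf.differentiable (by simp)) (fun q => dot_nu_self (ht q)) p v
  have h2 := dot_nu_D1 f p v
  unfold D1 at h2 ⊢
  rw [h, h2, neg_zero]

lemma D1_nu_dot_D1 (p v w : ℂ) :
    dot (D1 (nu f) p v) (D1 f p w) = - dot (nu f p) (D2 f p v w) := by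
  exact dot_deriv_of_const (c := 0) ((contDiff_nu hf ht).differentiable (by simp))
    ((contDiff_D1 hf w).differentiable (by simp)) (fun q => dot_nu_D1 f q w) p v

lemma D2_nu_dot (p v w : ℂ) :
    dot (D2 (nu f) p v w) (f p) = dot (nu f p) (D2 f p v w) := by
  have h := dot_deriv_of_const (c := 0)
    ((contDiff_D1 (contDiff_nu hf ht) w).differentiable (by simp))
    (hf.differentiable (by simp)) (fun q => D1_nu_dot hf ht q w) p v
  have h2 := D1_nu_dot_D1 hf ht p w v
  rw [D2_symm hf p v w]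
  unfold D2 at *
  unfold D1 at *
  rw [h, h2, neg_neg]

/-- The key determinant identity. -/
lemma det3_nu (p : ℂ) (y : V3) :
    det3 (D1 (nu f) p 1) (D1 (nu f) p Complex.I) y * theta f p =
      (dot (nu f p) (D2 f p 1 1) * dot (nu f p) (D2 f p Complex.I Complex.I)
        - dot (nu f p) (D2 f p 1 Complex.I) ^ 2) * dot y (f p) := by
  unfold theta
  rw [det3_mul]
  rw [D1_nu_dot hf ht, D1_nu_dot hf ht, D1_nu_dot_D1 hf ht, D1_nu_dot_D1 hf ht,
    D1_nu_dot_D1 hf ht, D1_nu_dot_D1 hf ht, D2_symm hf p Complex.I 1]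
  ring

end duality

/-- Relation of the Blaschke metric of a sphere with center `0` to the conormal field. -/
lemma blaschke_eq {f : ℂ → V3} {H : ℝ} (p v w : ℂ) :
    blaschke f 0 H p v w = (-H)⁻¹ * dot (nu f p) (D2 f p v w) := by
  unfold blaschke fundForm vol centralField
  rw [dot_nu, det3_smul_right, sub_zero]
  have : det3 (D1 f p 1) (D1 f p Complex.I) (f p) = theta f p := rfl
  rw [this, div_eq_mul_inv, mul_inv]
  ring

lemma vol_eq {f : ℂ → V3} {H : ℝ} (p : ℂ) :
    vol f (centralField f 0 H) p = (-H) * theta f p := by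
  unfold vol centralField theta
  rw [det3_smul_right, sub_zero]

lemma theta_ne_zero {f : ℂ → V3} {H : ℝ} (h : IsHyperbolicAffineSphere f 0 H) (p : ℂ) :
    theta f p ≠ 0 := by
  have := h.normal.transversal p
  rw [vol_eq] at this
  exact right_ne_zero_of_mul this

/-- The centroaffine determinant relation of an affine sphere. -/
lemma sphere_det {f : ℂ → V3} {H : ℝ} (h : IsHyperbolicAffineSphere f 0 H) (p : ℂ) :
    dot (nu f p) (D2 f p 1 1) * dot (nu f p) (D2 f p Complex.I Complex.I)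
        - dot (nu f p) (D2 f p 1 Complex.I) ^ 2 = H ^ 4 * theta f p ^ 2 := by
  have hH : H < 0 := h.neg
  have hv := h.normal.volume p
  have e := fun v w => blaschke_eq (f := f) (H := H) p v w
  unfold blaschke at e
  rw [e, e, e, vol_eq] at hv
  have hsym := D2_symm h.normal.smooth p Complex.I 1
  have hpd := h.posDef p
  set A := dot (nu f p) (D2 f p 1 1) with hA
  set B := dot (nu f p) (D2 f p 1 Complex.I) with hB
  set C := dot (nu f p) (D2 f p Complex.I Complex.I) with hC
  -- positivity of the discriminant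
  have hlin : ∀ s t : ℝ, dot (nu f p) (D2 f p ((s : ℂ) + t * Complex.I) ((s : ℂ) + t * Complex.I))
      = s ^ 2 * A + 2 * s * t * B + t ^ 2 * C := by
    intro s t
    have e1 : ((s : ℂ) + t * Complex.I) = s • (1 : ℂ) + t • Complex.I := by
      simp
    rw [e1, D2_eq h.normal.smooth]
    simp only [map_add, map_smul, add_apply, smul_apply,
      dot_add, dot_smul]
    rw [← D2_eq h.normal.smooth, ← D2_eq h.normal.smooth, ← D2_eq h.normal.smooth,
      ← D2_eq h.normal.smooth, hsym, ← hA, ← hB, ← hC]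
    ring
  have hA0 : 0 < A := by
    have h1 := hpd 1 one_ne_zero
    rw [blaschke_eq] at h1
    have : 0 < (-H)⁻¹ := by rw [inv_pos]; linarith
    exact (pos_iff_pos_of_mul_pos h1).1 this
  have hdisc : 0 ≤ A * C - B ^ 2 := by
    have hne : (((-B : ℝ) : ℂ) + (A : ℝ) * Complex.I) ≠ 0 := by
      intro h0
      have := congrArg Complex.im h0
      simp at this
      exact hA0.ne' this
    have h1 := hpd _ hne
    rw [blaschke_eq, hlin] at h1
    have h2 : 0 < (-H)⁻¹ := by rw [inv_pos]; linarith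
    have h3 := (pos_iff_pos_of_mul_pos h1).1 h2
    have h4 : (-B) ^ 2 * A + 2 * (-B) * A * B + A ^ 2 * C = A * (A * C - B ^ 2) := by ring
    rw [h4] at h3
    exact ((pos_iff_pos_of_mul_pos h3).1 hA0).le
  have h5 : (-H)⁻¹ * A * ((-H)⁻¹ * C) - ((-H)⁻¹ * B) ^ 2 = ((-H)⁻¹) ^ 2 * (A * C - B ^ 2) := by
    ring
  rw [h5, abs_of_nonneg (by positivity)] at hv
  have hH' : (-H) ≠ 0 := by linarith
  have h6 : A * C - B ^ 2 = (-H) ^ 2 * (((-H)⁻¹) ^ 2 * (A * C - B ^ 2)) := by
    rw [← mul_assoc, ← mul_pow, mul_inv_cancel₀ hH', one_pow, one_mul]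
  rw [h6, hv]
  ring

/-- Local duality: the conormal surface of a hyperbolic affine sphere with center `0` and affine
mean curvature `H` is a hyperbolic affine sphere with center `0` and affine mean curvature `1/H`,
and its Blaschke metric is a constant multiple of the original one. -/
lemma dual_det {f : ℂ → V3} {H : ℝ} (h : IsHyperbolicAffineSphere f 0 H) (p : ℂ) (y : V3) :
    det3 (D1 (nu f) p 1) (D1 (nu f) p Complex.I) y = H ^ 4 * theta f p * dot y (f p) := by
  have ht := theta_ne_zero h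
  have h1 := det3_nu h.normal.smooth ht p y
  rw [sphere_det h p] at h1
  have h2 : det3 (D1 (nu f) p 1) (D1 (nu f) p Complex.I) y * theta f p
      = (H ^ 4 * theta f p * dot y (f p)) * theta f p := by
    rw [h1]; ring
  exact mul_right_cancel₀ (ht p) h2

lemma theta_nu {f : ℂ → V3} {H : ℝ} (h : IsHyperbolicAffineSphere f 0 H) (p : ℂ) :
    theta (nu f) p = H ^ 4 * theta f p := by
  rw [theta, dual_det h, dot_nu_self (theta_ne_zero h p), mul_one]

lemma blaschke_nu {f : ℂ → V3} {H : ℝ} (h : IsHyperbolicAffineSphere f 0 H) (p v w : ℂ) :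
    blaschke (nu f) 0 H⁻¹ p v w = H ^ 2 * blaschke f 0 H p v w := by
  have hH : H ≠ 0 := h.neg.ne
  have ht := theta_ne_zero h p
  rw [blaschke_eq, blaschke_eq, dot_nu, dual_det h, theta_nu h,
    D2_nu_dot h.normal.smooth (theta_ne_zero h)]
  field_simp

lemma dual_sphere {f : ℂ → V3} {H : ℝ} (h : IsHyperbolicAffineSphere f 0 H) :
    IsHyperbolicAffineSphere (nu f) 0 H⁻¹ := by
  have ht := theta_ne_zero h
  have hν := contDiff_nu h.normal.smooth ht
  have hH : H < 0 := h.neg
  have hH0 : H ≠ 0 := hH.ne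
  refine ⟨inv_lt_zero.2 hH, ⟨hν, ?_, ?_, ?_, ?_⟩, ?_⟩
  · unfold centralField
    exact (hν.sub contDiff_const).const_smul _
  · intro p
    rw [vol_eq, theta_nu h]
    have := ht p
    have h4 : H ^ 4 ≠ 0 := pow_ne_zero _ hH0
    have h5 : -H⁻¹ ≠ 0 := neg_ne_zero.2 (inv_ne_zero hH0)
    positivity
  · intro p v
    have e : D1 (centralField (nu f) 0 H⁻¹) p v = (-H⁻¹) • D1 (nu f) p v := by
      unfold D1 centralField
      have : (fun p => -H⁻¹ • (nu f p - 0)) = fun p => (-H⁻¹) • nu f p := by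
        ext p; simp
      rw [this, fderiv_fun_const_smul ((hν.differentiable (by simp)) p)]
      rfl
    rw [e, det3_smul_right, det3_D1, mul_zero]
  · intro p
    have e := fun v w => blaschke_nu h p v w
    unfold blaschke at e
    rw [e, e, e, vol_eq, theta_nu h]
    have e2 := fun v w => blaschke_eq (f := f) (H := H) p v w
    unfold blaschke at e2
    rw [e2, e2, e2]
    have hd := sphere_det h p
    have e3 : H ^ 2 * ((-H)⁻¹ * dot (nu f p) (D2 f p 1 1)) *
          (H ^ 2 * ((-H)⁻¹ * dot (nu f p) (D2 f p Complex.I Complex.I))) -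
        (H ^ 2 * ((-H)⁻¹ * dot (nu f p) (D2 f p 1 Complex.I))) ^ 2
        = H ^ 2 * (dot (nu f p) (D2 f p 1 1) * dot (nu f p) (D2 f p Complex.I Complex.I)
        - dot (nu f p) (D2 f p 1 Complex.I) ^ 2) := by
      field_simp
    rw [e3, hd, abs_of_nonneg (by positivity)]
    field_simp
  · intro p v hv
    rw [blaschke_nu h]
    have := h.posDef p v hv
    positivity

end Pool.Agent.T2h53.AS
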