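import Mathlib
import Pool.Agent.T2h53.AS.Defs
import Pool.Agent.T2h53.AS.Convex
import Pool.Agent.T2h53.AS.Local

namespace Pool.Agent.T2h53.AS

open Set Filter Topology

/-! ### Cones -/

lemma IsRegularCone.add_mem {K : Set V3} (hK : IsRegularCone K) {x y : V3} (hx : x ∈ K)
    (hy : y ∈ K) : x + y ∈ K := by
  have h := hK.convex hx hy (a := 1 / 2) (b := 1 / 2) (by norm_num) (by norm_num) (by norm_num)
  have h2 := hK.cone _ h 2 (by norm_num)
  have : (2 : ℝ) • ((1 / 2 : ℝ) • x + (1 / 2 : ℝ) • y) = x + y := by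
    rw [smul_add, smul_smul, smul_smul]; norm_num
  rwa [this] at h2

lemma IsRegularCone.smul_mem_interior {K : Set V3} (hK : IsRegularCone K) {x : V3}
    (hx : x ∈ interior K) {t : ℝ} (ht : 0 < t) : t • x ∈ interior K := by
  have hopen : IsOpen ((fun y : V3 => t • y) '' interior K) :=
    (Homeomorph.smulOfNeZero t ht.ne').isOpenMap _ isOpen_interior
  have hsub : (fun y : V3 => t • y) '' interior K ⊆ K := by
    rintro _ ⟨y, hy, rfl⟩
    exact hK.cone y (interior_subset hy) t ht.le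
  exact interior_maximal hsub hopen ⟨x, hx, rfl⟩

lemma IsRegularCone.add_mem_interior {K : Set V3} (hK : IsRegularCone K) {x y : V3}
    (hx : x ∈ interior K) (hy : y ∈ K) : x + y ∈ interior K := by
  have hopen : IsOpen ((fun z : V3 => z + y) '' interior K) :=
    (Homeomorph.addRight y).isOpenMap _ isOpen_interior
  have hsub : (fun z : V3 => z + y) '' interior K ⊆ K := by
    rintro _ ⟨z, hz, rfl⟩
    exact hK.add_mem (interior_subset hz) hy
  exact interior_maximal hsub hopen ⟨x, hx, rfl⟩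

lemma IsRegularCone.subset_closure {K : Set V3} (hK : IsRegularCone K) :
    K ⊆ closure (interior K) := by
  have := hK.convex.closure_interior_eq_closure_of_nonempty_interior hK.solid
  rw [this]
  exact _root_.subset_closure

/-! ### A real lemma -/

lemma real_concave {R R1 R2 : ℝ → ℝ} (h0 : ∀ t ∈ Icc (0 : ℝ) 1, HasDerivAt R (R1 t) t)
    (h1 : ∀ t ∈ Icc (0 : ℝ) 1, HasDerivAt R1 (R2 t) t) (h2 : ∀ t ∈ Icc (0 : ℝ) 1, R2 t ≤ 0) :
    R 1 ≤ R 0 + R1 0 ∧
      (R 1 = R 0 + R1 0 → ∃ c ∈ Icc (0 : ℝ) 1, R2 c = 0 ∧ R1 c = R1 0) := by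
  have hanti : AntitoneOn R1 (Icc 0 1) := by
    apply antitoneOn_of_deriv_nonpos (convex_Icc 0 1)
    · exact fun t ht => (h1 t ht).continuousAt.continuousWithinAt
    · intro t ht
      exact (h1 t (interior_subset ht)).differentiableAt.differentiableWithinAt
    · intro t ht
      rw [(h1 t (interior_subset ht)).deriv]
      exact h2 t (interior_subset ht)
  have z1 : (0 : ℝ) ∈ Icc (0 : ℝ) 1 := by simp
  obtain ⟨c, hc, hc'⟩ := exists_hasDerivAt_eq_slope R R1 (by norm_num : (0 : ℝ) < 1)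
    (fun t ht => (h0 t ht).continuousAt.continuousWithinAt) (fun t ht => h0 t ⟨ht.1.le, ht.2.le⟩)
  have hcI : c ∈ Icc (0 : ℝ) 1 := ⟨hc.1.le, hc.2.le⟩
  have hc1 : R1 c ≤ R1 0 := hanti z1 hcI hc.1.le
  norm_num at hc'
  refine ⟨by linarith, fun heq => ?_⟩
  have hc2 : R1 c = R1 0 := by linarith
  obtain ⟨d, hd, hd'⟩ := exists_hasDerivAt_eq_slope R1 R2 hc.1
    (fun t ht => (h1 t ⟨ht.1, ht.2.trans hc.2.le⟩).continuousAt.continuousWithinAt)
    (fun t ht => h1 t ⟨ht.1.le, (ht.2.trans hc.2).le⟩)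
  have hdI : d ∈ Icc (0 : ℝ) 1 := ⟨hd.1.le, (hd.2.trans hc.2).le⟩
  refine ⟨d, hdI, ?_, ?_⟩
  · rw [hd', hc2, sub_self, zero_div]
  · apply le_antisymm (hanti z1 hdI hd.1.le)
    rw [← hc2]
    exact hanti hdI hcI hd.2.le

/-! ### The radial chart -/

section chart

variable {f : ℂ → V3} {K : Set V3} {H : ℝ} (hK : IsRegularCone K) (h : IsSphereOver f K H)

/-- The cone parametrisation. -/
def Fmap (f : ℂ → V3) (z : ℂ × ℝ) : V3 := z.2 • f z.1

include h in
lemma f_mem (q : ℂ) : f q ∈ interior K := h.asymptotic.subset ⟨q, rfl⟩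

include h in
lemma Fmap_injective {q q' : ℂ} {r r' : ℝ} (hr : 0 < r) (hr' : 0 < r')
    (e : r • f q = r' • f q') : q = q' ∧ r = r' := by
  obtain ⟨t, ht, huniq⟩ := h.asymptotic.ray (f q) (f_mem h q)
  have h1 : (1 : ℝ) = t := huniq 1 ⟨one_pos, by rw [one_smul]; exact ⟨q, rfl⟩⟩
  have h2 : r / r' = t := by
    apply huniq
    refine ⟨by positivity, q', ?_⟩
    have : (r'⁻¹ : ℝ) • (r • f q) = r'⁻¹ • (r' • f q') := by rw [e]
    rw [smul_smul, smul_smul, inv_mul_cancel₀ hr'.ne', one_smul] at this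
    rw [← this, div_eq_inv_mul]
  have h3 : r / r' = 1 := h2.trans h1.symm
  have h4 : r = r' := by
    field_simp at h3
    exact h3
  refine ⟨h.injective ?_, h4⟩
  subst h4
  have : (r⁻¹ : ℝ) • (r • f q) = r⁻¹ • (r • f q') := by rw [e]
  rwa [smul_smul, smul_smul, inv_mul_cancel₀ hr'.ne', one_smul, one_smul] at this

include h in
lemma Fmap_surj {y : V3} (hy : y ∈ interior K) : ∃ z : ℂ × ℝ, 0 < z.2 ∧ Fmap f z = y := by
  obtain ⟨t, ⟨ht, q, hq⟩, _⟩ := h.asymptotic.ray y hy
  refine ⟨(q, t⁻¹), inv_pos.2 ht, ?_⟩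
  simp only [Fmap]
  rw [hq, smul_smul, inv_mul_cancel₀ ht.ne', one_smul]

open Classical in
/-- The inverse of the cone parametrisation. -/
noncomputable def G (f : ℂ → V3) (y : V3) : ℂ × ℝ :=
  if h : ∃ z : ℂ × ℝ, 0 < z.2 ∧ Fmap f z = y then h.choose else (0, 0)

include h in
lemma G_spec {y : V3} (hy : y ∈ interior K) : 0 < (G f y).2 ∧ (G f y).2 • f (G f y).1 = y := by
  have hex := Fmap_surj h hy
  unfold G
  rw [dif_pos hex]
  exact hex.choose_spec

include h in
lemma G_eq {q : ℂ} {r : ℝ} (hr : 0 < r) : G f (r • f q) = (q, r) := by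
  have hex : ∃ z : ℂ × ℝ, 0 < z.2 ∧ Fmap f z = r • f q := ⟨(q, r), hr, rfl⟩
  have hsp : 0 < (G f (r • f q)).2 ∧ Fmap f (G f (r • f q)) = r • f q := by
    unfold G
    rw [dif_pos hex]
    exact hex.choose_spec
  have := Fmap_injective h hsp.1 hr hsp.2
  exact Prod.ext this.1 this.2

include h in
lemma D1_injective {q w : ℂ} (hw : D1 f q w = 0) : w = 0 := by
  have ht := theta_ne_zero h.sphere q
  have h1 : det3 (D1 f q w) (D1 f q Complex.I) (f q) = w.re * theta f q := by
    rw [D1_eq]; simp only [det3_eq, theta, Pi.add_apply, Pi.smul_apply, smul_eq_mul]; ring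
  have h2 : det3 (D1 f q 1) (D1 f q w) (f q) = w.im * theta f q := by
    rw [D1_eq f q w]; simp only [det3_eq, theta, Pi.add_apply, Pi.smul_apply, smul_eq_mul]; ring
  rw [hw] at h1 h2
  have z1 : det3 0 (D1 f q Complex.I) (f q) = 0 := by simp [det3_eq]
  have z2 : det3 (D1 f q 1) 0 (f q) = 0 := by simp [det3_eq]
  rw [z1] at h1
  rw [z2] at h2
  apply Complex.ext
  · rcases mul_eq_zero.1 h1.symm with h | h
    · exact h
    · exact absurd h ht
  · rcases mul_eq_zero.1 h2.symm with h | h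
    · exact h
    · exact absurd h ht

include h in
/-- The cone parametrisation has invertible derivatives. -/
lemma Fmap_deriv (q : ℂ) {r : ℝ} (hr : 0 < r) :
    ∃ e : (ℂ × ℝ) ≃L[ℝ] V3, HasStrictFDerivAt (Fmap f) (e : (ℂ × ℝ) →L[ℝ] V3) (q, r) ∧
      ∀ w s, e (w, s) = s • f q + r • D1 f q w := by
  have hf := h.sphere.normal.smooth
  have hF : ContDiff ℝ sm (Fmap f) := by
    unfold Fmap
    exact contDiff_snd.smul (hf.comp contDiff_fst)
  have hstrict : HasStrictFDerivAt (Fmap f) (fderiv ℝ (Fmap f) (q, r)) (q, r) :=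
    hF.contDiffAt.hasStrictFDerivAt (by simp)
  have hval : ∀ w s, fderiv ℝ (Fmap f) (q, r) (w, s) = s • f q + r • D1 f q w := by
    intro w s
    have h1 : HasFDerivAt (fun z : ℂ × ℝ => z.2) (ContinuousLinearMap.snd ℝ ℂ ℝ) (q, r) :=
      hasFDerivAt_snd
    have h2 : HasFDerivAt (fun z : ℂ × ℝ => f z.1)
        ((fderiv ℝ f q).comp (ContinuousLinearMap.fst ℝ ℂ ℝ)) (q, r) := by
      have : HasFDerivAt f (fderiv ℝ f q) ((q, r) : ℂ × ℝ).1 :=
        ((hf.differentiable (by simp)) q).hasFDerivAt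
      exact this.comp (q, r) hasFDerivAt_fst
    have h3 := h1.smul h2
    have h4 : fderiv ℝ (Fmap f) (q, r) = _ := h3.fderiv
    rw [h4]
    simp [D1]
    abel
  have hinj : Function.Injective (fderiv ℝ (Fmap f) (q, r)) := by
    rw [injective_iff_map_eq_zero]
    rintro ⟨w, s⟩ hws
    rw [hval] at hws
    have h1 : dot (nu f q) (s • f q + r • D1 f q w) = s := by
      rw [dot_add, dot_smul, dot_smul, dot_nu_self (theta_ne_zero h.sphere q), dot_nu_D1]
      ring
    rw [hws, dot_zero] at h1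
    rw [← h1, zero_smul, zero_add] at hws
    have h2 : D1 f q w = 0 := (smul_eq_zero.1 hws).resolve_left hr.ne'
    rw [D1_injective h h2, ← h1]
    rfl
  have hdim : Module.finrank ℝ (ℂ × ℝ) = Module.finrank ℝ V3 := by
    simp
  let e0 : (ℂ × ℝ) ≃ₗ[ℝ] V3 :=
    LinearMap.linearEquivOfInjective (fderiv ℝ (Fmap f) (q, r) : (ℂ × ℝ) →ₗ[ℝ] V3) hinj hdim
  have he0 : ∀ z, e0 z = fderiv ℝ (Fmap f) (q, r) z := fun z => rfl
  refine ⟨e0.toContinuousLinearEquiv, ?_, ?_⟩
  · have e1 : ((e0.toContinuousLinearEquiv : (ℂ × ℝ) ≃L[ℝ] V3) : (ℂ × ℝ) →L[ℝ] V3)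
        = fderiv ℝ (Fmap f) (q, r) := by
      ext z <;> rfl
    rw [e1]
    exact hstrict
  · intro w s
    rw [← hval]
    rfl

include hK h in
lemma G_hasFDerivAt {y : V3} (hy : y ∈ interior K) :
    ∃ e : (ℂ × ℝ) ≃L[ℝ] V3, HasFDerivAt (G f) (e.symm : V3 →L[ℝ] (ℂ × ℝ)) y ∧
      ∀ w s, e (w, s) = s • f (G f y).1 + (G f y).2 • D1 f (G f y).1 w := by
  obtain ⟨hr, hy'⟩ := G_spec h hy
  obtain ⟨e, he, hval⟩ := Fmap_deriv h (G f y).1 hr
  refine ⟨e, ?_, hval⟩
  have hFG : Fmap f (G f y) = y := hy'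
  have hmap : map (Fmap f) (𝓝 (G f y)) = 𝓝 y := by
    have := he.map_nhds_eq_of_equiv
    rw [Prod.mk.eta, hFG] at this
    exact this
  have hcont : ContinuousAt (G f) y := by
    intro W hW
    rw [mem_map, ← hmap, mem_map]
    have hpos : {z : ℂ × ℝ | 0 < z.2} ∈ 𝓝 (G f y) :=
      (isOpen_lt continuous_const continuous_snd).mem_nhds hr
    filter_upwards [hW, hpos] with z hz hz0
    have : G f (z.2 • f z.1) = (z.1, z.2) := G_eq h hz0
    change G f (z.2 • f z.1) ∈ W
    rw [this]
    exact hz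
  have hd : HasFDerivAt (Fmap f) (e : (ℂ × ℝ) →L[ℝ] V3) (G f y) := he.hasFDerivAt
  refine HasFDerivAt.of_local_left_inverse hcont hd ?_
  filter_upwards [isOpen_interior.mem_nhds hy] with z hz
  exact (G_spec h hz).2

include hK h in
lemma G_continuousOn : ContinuousOn (G f) (interior K) := by
  intro y hy
  obtain ⟨e, he, _⟩ := G_hasFDerivAt hK h hy
  exact he.continuousAt.continuousWithinAt

include hK h in
/-- Derivatives of the radial coordinate along straight lines. -/
lemma line_deriv {x v : V3} {t : ℝ} (hx : x + t • v ∈ interior K) :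
    ∃ w : ℂ, HasDerivAt (fun τ : ℝ => (G f (x + τ • v)).2)
        (dot (nu f (G f (x + t • v)).1) v) t ∧
      HasDerivAt (fun τ : ℝ => dot (nu f (G f (x + τ • v)).1) v)
        (-((G f (x + t • v)).2 * dot (nu f (G f (x + t • v)).1)
          (D2 f (G f (x + t • v)).1 w w))) t ∧
      v = dot (nu f (G f (x + t • v)).1) v • f (G f (x + t • v)).1
        + (G f (x + t • v)).2 • D1 f (G f (x + t • v)).1 w := by
  obtain ⟨e, he, hval⟩ := G_hasFDerivAt hK h hx
  have hline : HasDerivAt (fun τ : ℝ => x + τ • v) v t := by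
    have := ((hasDerivAt_id t).smul_const v).const_add x
    simpa using this
  have hG : HasDerivAt (fun τ : ℝ => G f (x + τ • v)) (e.symm v) t := by
    have he' : HasFDerivAt (G f) (e.symm : V3 →L[ℝ] (ℂ × ℝ)) ((fun τ : ℝ => x + τ • v) t) := he
    exact he'.comp_hasDerivAt t hline
  set q := (G f (x + t • v)).1 with hq
  set r := (G f (x + t • v)).2 with hr
  set w := (e.symm v).1 with hw
  set s := (e.symm v).2 with hs
  have hv : v = s • f q + r • D1 f q w := by
    rw [← hval w s]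
    have : ((w, s) : ℂ × ℝ) = e.symm v := rfl
    rw [this, e.apply_symm_apply]
  have hsd : dot (nu f q) v = s := by
    conv_lhs => rw [hv]
    rw [dot_add, dot_smul, dot_smul, dot_nu_self (theta_ne_zero h.sphere q), dot_nu_D1]
    ring
  have h1 : HasDerivAt (fun τ : ℝ => (G f (x + τ • v)).2) s t := by
    have := (hasFDerivAt_snd (𝕜 := ℝ) (p := G f (x + t • v))).comp_hasDerivAt t hG
    exact this
  have h2 : HasDerivAt (fun τ : ℝ => (G f (x + τ • v)).1) w t := by
    have := (hasFDerivAt_fst (𝕜 := ℝ) (p := G f (x + t • v))).comp_hasDerivAt t hG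
    exact this
  have hν := contDiff_nu h.sphere.normal.smooth (theta_ne_zero h.sphere)
  have h3 : HasDerivAt (fun τ : ℝ => nu f (G f (x + τ • v)).1) (D1 (nu f) q w) t := by
    have hd : HasFDerivAt (nu f) (fderiv ℝ (nu f) q) (G f (x + t • v)).1 :=
      ((hν.differentiable (by simp)) q).hasFDerivAt
    exact hd.comp_hasDerivAt t h2
  have h4 : HasDerivAt (fun τ : ℝ => dot (nu f (G f (x + τ • v)).1) v)
      (dot (D1 (nu f) q w) v) t := by
    have h3' := fun i => (hasDerivAt_pi.1 h3) i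
    have := (((h3' 0).mul_const (v 0)).add ((h3' 1).mul_const (v 1))).add
      ((h3' 2).mul_const (v 2))
    exact this
  refine ⟨w, ?_, ?_, ?_⟩
  · rw [hsd]; exact h1
  · convert h4 using 1
    conv_rhs => rw [hv]
    rw [dot_add, dot_smul, dot_smul, D1_nu_dot h.sphere.normal.smooth (theta_ne_zero h.sphere),
      D1_nu_dot_D1 h.sphere.normal.smooth (theta_ne_zero h.sphere)]
    ring
  · rw [hsd]; exact hv

include h in
lemma nu_D2_pos {q w : ℂ} (hw : w ≠ 0) : 0 < dot (nu f q) (D2 f q w w) := by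
  have h1 := h.sphere.posDef q w hw
  rw [blaschke_eq] at h1
  have hH := h.sphere.neg
  have : 0 < (-H)⁻¹ := by rw [inv_pos]; linarith
  exact (pos_iff_pos_of_mul_pos h1).1 this

include h in
lemma nu_D2_nonneg (q w : ℂ) : 0 ≤ dot (nu f q) (D2 f q w w) := by
  by_cases hw : w = 0
  · subst hw
    rw [D2_eq h.sphere.normal.smooth]
    simp [dot_zero]
  · exact (nu_D2_pos h hw).le

include hK h in
/-- The support inequality with its equality case. -/
lemma support (p q : ℂ) : 1 ≤ dot (nu f p) (f q) ∧ (dot (nu f p) (f q) = 1 → p = q) := by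
  set v := f q - f p with hv
  have hmem : ∀ t ∈ Icc (0 : ℝ) 1, f p + t • v ∈ interior K := by
    intro t ht
    have := hK.convex.interior (f_mem h p) (f_mem h q) (a := 1 - t) (b := t)
      (by linarith [ht.2]) ht.1 (by ring)
    convert this using 1
    rw [hv, sub_smul, one_smul, smul_sub]; abel
  choose! w hw1 hw2 hw3 using fun t (ht : f p + t • v ∈ interior K) => line_deriv hK h ht
  have hneg : ∀ t ∈ Icc (0 : ℝ) 1, -((G f (f p + t • v)).2 *
      dot (nu f (G f (f p + t • v)).1) (D2 f (G f (f p + t • v)).1 (w t) (w t))) ≤ 0 := by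
    intro t ht
    have h1 := (G_spec h (hmem t ht)).1
    have h2 := nu_D2_nonneg h (G f (f p + t • v)).1 (w t)
    have := mul_nonneg h1.le h2
    linarith
  obtain ⟨hle, heq⟩ := real_concave (fun t ht => hw1 t (hmem t ht))
    (fun t ht => hw2 t (hmem t ht)) hneg
  have e1 : G f (f p + (1 : ℝ) • v) = (q, 1) := by
    have := G_eq h (q := q) one_pos
    rw [one_smul] at this
    rw [one_smul, hv, add_sub_cancel, this]
  have e0 : G f (f p + (0 : ℝ) • v) = (p, 1) := by
    have := G_eq h (q := p) one_pos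
    rw [one_smul] at this
    rw [zero_smul, add_zero, this]
  have e2 : dot (nu f p) v = dot (nu f p) (f q) - 1 := by
    rw [hv, dot_sub, dot_nu_self (theta_ne_zero h.sphere p)]
  rw [e1, e0] at hle heq
  simp only [e2] at hle heq
  refine ⟨by linarith, fun h1 => ?_⟩
  obtain ⟨c, hc, hc1, hc2⟩ := heq (by linarith)
  have h3 := G_spec h (hmem c hc)
  have h4 : w c = 0 := by
    by_contra hne
    have := nu_D2_pos h (q := (G f (f p + c • v)).1) hne
    have := mul_pos h3.1 this
    linarith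
  have h5 := hw3 c (hmem c hc)
  rw [h4, hc2, h1, sub_self, zero_smul, zero_add] at h5
  have h6 : D1 f (G f (f p + c • v)).1 0 = 0 := by
    unfold D1; simp
  rw [h6, smul_zero] at h5
  have h7 : f q = f p := by
    rw [hv] at h5
    exact sub_eq_zero.1 h5
  exact (h.injective h7).symm

include hK h in
lemma nu_injective : Function.Injective (nu f) := by
  intro p q hpq
  apply (support hK h p q).2
  rw [hpq, dot_nu_self (theta_ne_zero h.sphere q)]

include hK h in
/-- For `x` in the open cone, the conormals are at least the radial coordinate. -/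
lemma radial_le {x : V3} (hx : x ∈ interior K) (p : ℂ) : (G f x).2 ≤ dot (nu f p) x := by
  obtain ⟨h1, h2⟩ := G_spec h hx
  have h3 := (support hK h p (G f x).1).1
  calc (G f x).2 = (G f x).2 * 1 := by ring
    _ ≤ (G f x).2 * dot (nu f p) (f (G f x).1) := by gcongr
    _ = dot (nu f p) x := by rw [← dot_smul, h2]

include hK h in
lemma nu_nonneg {x : V3} (hx : x ∈ K) (p : ℂ) : 0 ≤ dot (nu f p) x := by
  have hsub : closure (interior K) ⊆ {y : V3 | 0 ≤ dot (nu f p) y} := by
    apply closure_minimal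
    · intro y hy
      exact (G_spec h hy).1.le.trans (radial_le hK h hy p)
    · exact isClosed_le continuous_const (by fun_prop)
  exact hsub (hK.subset_closure hx)

include hK h in
lemma nu_pos {x : V3} (hx : x ∈ K) (hx0 : x ≠ 0) (p : ℂ) : 0 < dot (nu f p) x := by
  rcases (nu_nonneg hK h hx p).lt_or_eq with h0 | h0
  · exact h0
  · exfalso
    have hy : f p + x ∈ interior K := hK.add_mem_interior (f_mem h p) hx
    obtain ⟨hr, hG⟩ := G_spec h hy
    set q := (G f (f p + x)).1 with hq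
    set r := (G f (f p + x)).2 with hrr
    have h1 : dot (nu f p) (f p + x) = 1 := by
      rw [dot_add, dot_nu_self (theta_ne_zero h.sphere p), ← h0, add_zero]
    have h2 : dot (nu f q) (f p + x) = r := by
      rw [← hG, dot_smul, dot_nu_self (theta_ne_zero h.sphere q), mul_one]
    have h3 : 1 ≤ r := by
      rw [← h2, dot_add]
      have := (support hK h q p).1
      have := nu_nonneg hK h hx q
      linarith
    have h4 := (support hK h p q)
    have h5 : r * dot (nu f p) (f q) = 1 := by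
      rw [← dot_smul, hG, h1]
    have h6 : r = 1 := by nlinarith [h4.1]
    rw [h6, one_mul] at h5
    have h7 := h4.2 h5
    rw [h6, one_smul, ← h7] at hG
    apply hx0
    have := add_left_cancel (a := f p) (b := 0) (c := x) (by rw [add_zero]; exact hG)
    exact this.symm

include hK h in
lemma nu_mem (p : ℂ) : nu f p ∈ interior (dualCone K) :=
  mem_interior_dualCone hK.closed hK.cone fun _ hx hx0 => nu_pos hK h hx hx0 p

include hK h in
/-- A functional whose restriction to the surface has a minimum at `p` is a multiple of the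
conormal at `p`. -/
lemma eq_nu_of_min {φ : V3} {p : ℂ} (hmin : ∀ q, dot φ (f p) ≤ dot φ (f q)) :
    φ = dot φ (f p) • nu f p := by
  have hf := h.sphere.normal.smooth
  have hcrit : ∀ v, dot φ (D1 f p v) = 0 := by
    intro v
    have h1 : IsLocalMin (fun q => dot φ (f q)) p :=
      Filter.Eventually.of_forall hmin
    have h2 := h1.fderiv_eq_zero
    have h3 := fderiv_dot (a := fun _ => φ) (b := f) (p := p) (differentiableAt_const _)
      ((hf.differentiable (by simp)) p) v
    rw [h2] at h3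
    simp [zero_dot] at h3
    unfold D1
    exact h3.symm
  have ht := theta_ne_zero h.sphere p
  -- compare on the frame
  set ψ := φ - dot φ (f p) • nu f p with hψ
  have k0 : dot ψ (f p) = 0 := by
    rw [hψ, sub_dot, smul_dot, dot_nu_self ht]; ring
  have k1 : ∀ v, dot ψ (D1 f p v) = 0 := by
    intro v
    rw [hψ, sub_dot, smul_dot, dot_nu_D1, hcrit]; ring
  have hψ0 : ψ = 0 := by
    by_contra hne
    have hp := dot_self_pos hne
    have h1 := det3_mul (D1 f p 1) (D1 f p Complex.I) (f p) ψ ψ ψ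
    -- solve with cross products
    have a := k1 1
    have b := k1 Complex.I
    have c := k0
    unfold dot at a b c
    have e0 : ψ 0 * theta f p = 0 := by
      rw [theta, det3_eq]
      linear_combination (D1 f p Complex.I 1 * f p 2 - D1 f p Complex.I 2 * f p 1) * a
        + (f p 1 * D1 f p 1 2 - f p 2 * D1 f p 1 1) * b
        + (D1 f p 1 1 * D1 f p Complex.I 2 - D1 f p 1 2 * D1 f p Complex.I 1) * c
    have e1 : ψ 1 * theta f p = 0 := by
      rw [theta, det3_eq]
      linear_combination (D1 f p Complex.I 2 * f p 0 - D1 f p Complex.I 0 * f p 2) * a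
        + (f p 2 * D1 f p 1 0 - f p 0 * D1 f p 1 2) * b
        + (D1 f p 1 2 * D1 f p Complex.I 0 - D1 f p 1 0 * D1 f p Complex.I 2) * c
    have e2 : ψ 2 * theta f p = 0 := by
      rw [theta, det3_eq]
      linear_combination (D1 f p Complex.I 0 * f p 1 - D1 f p Complex.I 1 * f p 0) * a
        + (f p 0 * D1 f p 1 1 - f p 1 * D1 f p 1 0) * b
        + (D1 f p 1 0 * D1 f p Complex.I 1 - D1 f p 1 1 * D1 f p Complex.I 0) * c
    apply hne
    ext i
    fin_cases i
    · exact (mul_eq_zero.1 e0).resolve_right ht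
    · exact (mul_eq_zero.1 e1).resolve_right ht
    · exact (mul_eq_zero.1 e2).resolve_right ht
  exact sub_eq_zero.1 hψ0

include hK h in
/-- If `φ` is at least `1` on the surface, with equality somewhere, then it is a conormal. -/
lemma mem_range_nu {φ : V3} (h1 : ∀ q, 1 ≤ dot φ (f q)) {p : ℂ} (hp : dot φ (f p) = 1) :
    φ = nu f p := by
  have := eq_nu_of_min hK h (φ := φ) (p := p) (fun q => by rw [hp]; exact h1 q)
  rw [hp, one_smul] at this
  exact this

include hK h in
lemma exists_min {φ : V3} (hφ : φ ∈ interior (dualCone K)) :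
    ∃ p, ∀ q, dot φ (f p) ≤ dot φ (f q) := by
  obtain ⟨δ, hδ, hb⟩ := exists_lower_bound hK.closed hK.cone
    (fun x hx hx0 => dot_pos_of_mem_interior hφ hx hx0)
  set C := dot φ (f 0) with hC
  set T := range f ∩ Metric.closedBall (0 : V3) (C / δ) with hT
  have hTc : IsCompact T := (isCompact_closedBall _ _).inter_left h.asymptotic.closed
  have h0 : f 0 ∈ T := by
    refine ⟨⟨0, rfl⟩, ?_⟩
    rw [mem_closedBall_zero_iff, le_div_iff₀ hδ]
    have := hb _ (interior_subset (f_mem h 0))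
    linarith
  obtain ⟨x0, hx0, hmin⟩ := hTc.exists_isMinOn ⟨_, h0⟩
    (f := fun x => dot φ x) (by fun_prop : Continuous fun x => dot φ x).continuousOn
  obtain ⟨p, rfl⟩ := hx0.1
  refine ⟨p, fun q => ?_⟩
  by_cases hq : f q ∈ T
  · exact hmin hq
  · have h1 : ¬ ‖f q‖ ≤ C / δ := by
      intro hle
      exact hq ⟨⟨q, rfl⟩, by rw [mem_closedBall_zero_iff]; exact hle⟩
    rw [le_div_iff₀ hδ] at h1
    push Not at h1
    have h2 := hb _ (interior_subset (f_mem h q))
    have h3 : dot φ (f p) ≤ C := hmin h0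
    linarith

include hK h in
lemma nu_ray {φ : V3} (hφ : φ ∈ interior (dualCone K)) :
    ∃! t : ℝ, 0 < t ∧ t • φ ∈ range (nu f) := by
  obtain ⟨p, hp⟩ := exists_min hK h hφ
  have h1 := eq_nu_of_min hK h hp
  have hf0 : f p ≠ 0 := by
    intro h0
    have := dot_nu_self (theta_ne_zero h.sphere p)
    rw [h0, dot_zero] at this
    exact zero_ne_one this
  have hpos : 0 < dot φ (f p) :=
    dot_pos_of_mem_interior hφ (interior_subset (f_mem h p)) hf0
  have hfirst : (dot φ (f p))⁻¹ • φ = nu f p := by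
    conv_lhs => rw [h1]
    rw [smul_dot, dot_nu_self (theta_ne_zero h.sphere p), smul_smul, mul_one,
      inv_mul_cancel₀ hpos.ne', one_smul]
  have key : ∀ s t : ℝ, 0 < s → 0 < t → s • φ ∈ range (nu f) → t • φ ∈ range (nu f) →
      s ≤ t := by
    rintro s t hs ht ⟨a, ha⟩ ⟨b, hb⟩
    have h2 := (support hK h b a).1
    have h3 := dot_nu_self (theta_ne_zero h.sphere a)
    rw [hb, smul_dot] at h2
    rw [ha, smul_dot] at h3
    have h4 : 0 < dot φ (f a) := by
      by_contra hc
      push Not at hc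
      have := mul_nonpos_of_nonneg_of_nonpos hs.le hc
      linarith
    by_contra hc
    push Not at hc
    have : t * dot φ (f a) < s * dot φ (f a) := by gcongr
    linarith
  refine ⟨(dot φ (f p))⁻¹, ⟨inv_pos.2 hpos, p, hfirst.symm⟩, ?_⟩
  rintro t ⟨ht, htm⟩
  apply le_antisymm
  · exact key _ _ ht (inv_pos.2 hpos) htm ⟨p, hfirst.symm⟩
  · exact key _ _ (inv_pos.2 hpos) ht ⟨p, hfirst.symm⟩ htm

end chart

end Pool.Agent.T2h53.AS
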