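import Mathlib
import Pool.Agent.T2h53.AS.Defs
import Pool.Agent.T2h53.AS.Convex
import Pool.Agent.T2h53.AS.Local
import Pool.Agent.T2h53.AS.Global

namespace Pool.Agent.T2h53.AS

open Set Filter Topology

variable {f : ℂ → V3} {K : Set V3} {H : ℝ}

lemma f_ne_zero (h : IsSphereOver f K H) (p : ℂ) : f p ≠ 0 := by
  intro h0
  have := dot_nu_self (theta_ne_zero h.sphere p)
  rw [h0, dot_zero] at this
  exact zero_ne_one this

lemma zero_mem_frontier (hK : IsRegularCone K) (h : IsSphereOver f K H) :
    (0 : V3) ∈ frontier K := by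
  have hmem : (0 : V3) ∈ K := by
    have := hK.cone _ (interior_subset (f_mem h 0)) 0 le_rfl
    rwa [zero_smul] at this
  refine ⟨_root_.subset_closure hmem, fun h0 => ?_⟩
  obtain ⟨h1, h2⟩ := G_spec h h0
  have := (smul_eq_zero.1 h2).resolve_left h1.ne'
  exact f_ne_zero h _ this

lemma closure_ge (h : IsSphereOver f K H) (hK : IsRegularCone K) {φ : V3}
    (hφ : φ ∈ closure (range (nu f))) (q : ℂ) : 1 ≤ dot φ (f q) := by
  have hsub : closure (range (nu f)) ⊆ {y : V3 | 1 ≤ dot y (f q)} := by
    apply closure_minimal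
    · rintro _ ⟨p, rfl⟩
      exact (support hK h p q).1
    · exact isClosed_le continuous_const (by fun_prop)
  exact hsub hφ

lemma closure_mem_interior (h : IsSphereOver f K H) (hK : IsRegularCone K) {φ : V3}
    (hφ : φ ∈ closure (range (nu f))) : φ ∈ interior (dualCone K) := by
  have hge := closure_ge h hK hφ
  have hdual : φ ∈ dualCone K := by
    have hsub : closure (range (nu f)) ⊆ dualCone K := by
      apply closure_minimal _ (isClosed_dualCone K)
      rintro _ ⟨p, rfl⟩
      exact interior_subset (nu_mem hK h p)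
    exact hsub hφ
  apply mem_interior_dualCone hK.closed hK.cone
  intro x hx hx0
  by_contra hcon
  have hzero : dot φ x = 0 := by
    have := hdual x hx
    rw [dot_comm] at this
    push Not at hcon
    linarith
  set x1 := f 0 with hx1
  set M := dot φ x1 with hM
  have hM1 : 1 ≤ M := hge 0
  have hM0 : 0 < M := by linarith
  have hx1K : x1 ∈ interior K := f_mem h 0
  -- the points on the surface
  have hz : ∀ t : ℝ, 0 ≤ t → x1 + t • x ∈ interior K := fun t ht =>
    hK.add_mem_interior hx1K (hK.cone x hx t ht)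
  have hr : ∀ t : ℝ, 0 ≤ t → (G f (x1 + t • x)).2 ≤ M := by
    intro t ht
    obtain ⟨h1, h2⟩ := G_spec h (hz t ht)
    have h3 := hge (G f (x1 + t • x)).1
    have h4 : (G f (x1 + t • x)).2 * dot φ (f (G f (x1 + t • x)).1) = M := by
      rw [← dot_smul, h2, dot_add, dot_smul, hzero]; ring
    nlinarith
  -- lower bound for the distance to the boundary
  have hMx : M⁻¹ • x1 ∈ interior K := hK.smul_mem_interior hx1K (inv_pos.2 hM0)
  obtain ⟨ε, hε, hball⟩ := Metric.isOpen_iff.1 isOpen_interior _ hMx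
  have hinf : ∀ t : ℝ, 0 ≤ t → ε ≤ Metric.infDist (f (G f (x1 + t • x)).1) (frontier K) := by
    intro t ht
    rw [Metric.le_infDist ⟨0, zero_mem_frontier hK h⟩]
    intro y hy
    by_contra hlt
    push Not at hlt
    obtain ⟨h1, h2⟩ := G_spec h (hz t ht)
    have h3 := hr t ht
    set r := (G f (x1 + t • x)).2
    set q := (G f (x1 + t • x)).1
    have hfq : f q = r⁻¹ • (x1 + t • x) := by
      rw [← h2, smul_smul, inv_mul_cancel₀ h1.ne', one_smul]
    set k := (r⁻¹ - M⁻¹) • x1 + (r⁻¹ * t) • x with hk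
    have hkK : k ∈ K := by
      apply hK.add_mem
      · apply hK.cone _ (interior_subset hx1K)
        rw [sub_nonneg]
        exact inv_anti₀ h1 h3
      · exact hK.cone _ hx _ (by positivity)
    have hfk : f q = M⁻¹ • x1 + k := by
      rw [hfq, hk, smul_add, smul_smul, sub_smul]; abel
    have hyk : y - k ∈ interior K := by
      apply hball
      rw [Metric.mem_ball, dist_eq_norm]
      rw [dist_eq_norm, hfk, ← norm_neg] at hlt
      have e1 : y - k - M⁻¹ • x1 = -(M⁻¹ • x1 + k - y) := by abel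
      rw [e1]
      exact hlt
    have := hK.add_mem_interior hyk hkK
    rw [sub_add_cancel] at this
    exact hy.2 this
  -- use the asymptotic property
  have hdist := h.asymptotic.dist
  rw [Metric.tendsto_nhds] at hdist
  have hev := hdist ε hε
  rw [eventually_inf_principal] at hev
  rw [Filter.Eventually, mem_cocompact] at hev
  obtain ⟨C, hC, hCsub⟩ := hev
  obtain ⟨B, hB⟩ := hC.isBounded.subset_closedBall (0 : V3)
  have hbound : ∀ t : ℝ, 0 ≤ t → ‖f (G f (x1 + t • x)).1‖ ≤ B := by
    intro t ht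
    have hin : f (G f (x1 + t • x)).1 ∈ C := by
      by_contra hnot
      have := hCsub hnot ⟨_, rfl⟩
      rw [dist_zero_right, Real.norm_of_nonneg Metric.infDist_nonneg] at this
      exact absurd (hinf t ht) (not_le.2 this)
    have := hB hin
    rwa [mem_closedBall_zero_iff] at this
  have hxn : 0 < ‖x‖ := norm_pos_iff.2 hx0
  have hB0 : 0 ≤ B := (norm_nonneg _).trans (hbound 0 le_rfl)
  set t := (M * B + ‖x1‖ + 1) / ‖x‖ with ht
  have ht0 : 0 ≤ t := by positivity
  obtain ⟨h1, h2⟩ := G_spec h (hz t ht0)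
  have h3 := hbound t ht0
  have h4 := hr t ht0
  have h5 : ‖x1 + t • x‖ ≤ M * B := by
    rw [← h2, norm_smul, Real.norm_eq_abs, abs_of_pos h1]
    gcongr
  have h6 : t * ‖x‖ ≤ ‖x1 + t • x‖ + ‖x1‖ := by
    have h7 : t • x = (x1 + t • x) - x1 := by abel
    calc t * ‖x‖ = ‖t • x‖ := by rw [norm_smul, Real.norm_eq_abs, abs_of_nonneg ht0]
      _ = ‖(x1 + t • x) - x1‖ := by rw [← h7]
      _ ≤ _ := norm_sub_le _ _
  have h8 : t * ‖x‖ = M * B + ‖x1‖ + 1 := by
    rw [ht]; field_simp
  linarith

lemma isClosed_range_nu (h : IsSphereOver f K H) (hK : IsRegularCone K) :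
    IsClosed (range (nu f)) := by
  rw [← closure_subset_iff_isClosed]
  intro φ hφ
  have hge := closure_ge h hK hφ
  have hint := closure_mem_interior h hK hφ
  obtain ⟨p, hp⟩ := exists_min hK h hint
  obtain ⟨δ, hδ, hb⟩ := exists_lower_bound hK.closed hK.cone
    (fun x hx hx0 => dot_pos_of_mem_interior hint hx hx0)
  have hone : dot φ (f p) = 1 := by
    apply le_antisymm _ (hge p)
    apply le_of_forall_pos_le_add
    intro e he
    set ε := min (δ / 6) (e * δ / 6) with hε
    have hε0 : 0 < ε := by positivity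
    obtain ⟨_, ⟨a, rfl⟩, ha⟩ := Metric.mem_closure_iff.1 hφ ε hε0
    rw [dist_eq_norm] at ha
    have h1 := hb _ (interior_subset (f_mem h a))
    have h2 := abs_dot_le (φ - nu f a) (f a)
    have h3 : dot φ (f a) = 1 + dot (φ - nu f a) (f a) := by
      rw [sub_dot, dot_nu_self (theta_ne_zero h.sphere a)]; ring
    have h4 := le_abs_self (dot (φ - nu f a) (f a))
    have h5 : 3 * ‖φ - nu f a‖ * ‖f a‖ ≤ 3 * ε * ‖f a‖ := by gcongr
    have h6 : ε ≤ δ / 6 := min_le_left _ _
    have h7 : ε ≤ e * δ / 6 := min_le_right _ _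
    have hn := norm_nonneg (f a)
    have h8 : 3 * ε * ‖f a‖ ≤ (δ / 2) * ‖f a‖ := by
      have : 3 * ε ≤ δ / 2 := by linarith
      gcongr
    have h9 : (δ / 2) * ‖f a‖ ≤ 1 := by linarith
    have h10 : ‖f a‖ ≤ 2 / δ := by
      rw [le_div_iff₀ hδ]; linarith
    have h11 : 3 * ε * ‖f a‖ ≤ 3 * (e * δ / 6) * (2 / δ) := by gcongr
    have h12 : 3 * (e * δ / 6) * (2 / δ) = e := by field_simp; norm_num
    have h13 := hp a
    linarith
  exact ⟨p, (mem_range_nu hK h hge hone).symm⟩

lemma dual_dist (h : IsSphereOver f K H) (hK : IsRegularCone K) :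
    Tendsto (fun x => Metric.infDist x (frontier (dualCone K)))
      (cocompact V3 ⊓ 𝓟 (range (nu f))) (𝓝 0) := by
  rw [Metric.tendsto_nhds]
  intro ε hε
  rw [eventually_inf_principal]
  rw [Filter.Eventually, mem_cocompact]
  set T := range f ∩ Metric.closedBall (0 : V3) (2 / ε) with hT
  have hTc : IsCompact T := (isCompact_closedBall _ _).inter_left h.asymptotic.closed
  have hTsub : T ⊆ interior K := fun x hx => h.asymptotic.subset hx.1
  have hν := contDiff_nu h.sphere.normal.smooth (theta_ne_zero h.sphere)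
  have hcont : ContinuousOn (fun x => nu f (G f x).1) T :=
    (hν.continuous.comp continuous_fst).comp_continuousOn ((G_continuousOn hK h).mono hTsub)
  refine ⟨(fun x => nu f (G f x).1) '' T, hTc.image_of_continuousOn hcont, ?_⟩
  rintro φ hφ ⟨p, rfl⟩
  rw [dist_zero_right, Real.norm_of_nonneg Metric.infDist_nonneg]
  by_contra hge
  push Not at hge
  apply hφ
  have hball : Metric.ball (nu f p) ε ⊆ dualCone K := by
    intro y hy
    by_contra hyn
    have hconn : IsPreconnected (Metric.ball (nu f p) ε) := (convex_ball _ _).isPreconnected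
    have hmeet : ∃ z, z ∈ Metric.ball (nu f p) ε ∧ z ∈ frontier (dualCone K) := by
      by_contra hno
      push Not at hno
      have hcov : Metric.ball (nu f p) ε ⊆ interior (dualCone K) ∪ (dualCone K)ᶜ := by
        intro z hz
        by_cases hzK : z ∈ dualCone K
        · left
          by_contra hzi
          exact hno z hz ⟨_root_.subset_closure hzK, hzi⟩
        · right; exact hzK
      obtain ⟨z, _, hz1, hz2⟩ := hconn _ _ isOpen_interior (isClosed_dualCone K).isOpen_compl hcov
        ⟨nu f p, Metric.mem_ball_self hε, nu_mem hK h p⟩ ⟨y, hy, hyn⟩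
      exact hz2 (interior_subset hz1)
    obtain ⟨z, hz1, hz2⟩ := hmeet
    have := (Metric.infDist_le_dist_of_mem hz2).trans_lt
      (by rw [dist_comm]; exact Metric.mem_ball.1 hz1 : dist (nu f p) z < ε)
    linarith
  have hfn : 0 < ‖f p‖ := norm_pos_iff.2 (f_ne_zero h p)
  set s := ε / (2 * ‖f p‖) with hs
  have hs0 : 0 < s := by positivity
  have hmem : nu f p - s • f p ∈ dualCone K := by
    apply hball
    rw [Metric.mem_ball, dist_eq_norm]
    have : nu f p - s • f p - nu f p = -(s • f p) := by abel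
    rw [this, norm_neg, norm_smul, Real.norm_eq_abs, abs_of_pos hs0, hs]
    field_simp
    linarith
  have h1 := hmem (f p) (interior_subset (f_mem h p))
  rw [dot_comm, sub_dot, smul_dot, dot_nu_self (theta_ne_zero h.sphere p)] at h1
  have h2 := norm_le_sqrt (a := f p)
  have h3 : s * ‖f p‖ ^ 2 ≤ 1 := by nlinarith
  have h4 : s * ‖f p‖ ^ 2 = ε * ‖f p‖ / 2 := by
    rw [hs]; field_simp
  have h5 : ‖f p‖ ≤ 2 / ε := by
    rw [le_div_iff₀ hε]; linarith
  refine ⟨f p, ⟨⟨p, rfl⟩, by rw [mem_closedBall_zero_iff]; exact h5⟩, ?_⟩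
  have := G_eq h (q := p) one_pos
  rw [one_smul] at this
  simp [this]

lemma complete_mul {m : ℂ → ℂ → ℂ → ℝ} {m' : ℂ → ℂ → ℂ → ℝ} {c : ℝ} (hc : 0 < c)
    (hm : ∀ p v w, m' p v w = c * m p v w) (h : IsCompleteMetric m) : IsCompleteMetric m' := by
  intro γ hγ hint
  apply h γ hγ
  have e : (fun t => √(m (γ t) (deriv γ t) (deriv γ t)))
      = fun t => (√c)⁻¹ * √(m' (γ t) (deriv γ t) (deriv γ t)) := by
    ext t
    rw [hm, Real.sqrt_mul hc.le, ← mul_assoc, inv_mul_cancel₀ (Real.sqrt_pos.2 hc).ne', one_mul]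
  rw [e]
  exact hint.const_mul _

lemma conformal_mul {m : ℂ → ℂ → ℂ → ℝ} {m' : ℂ → ℂ → ℂ → ℝ} {c : ℝ} (hc : 0 < c)
    (hm : ∀ p v w, m' p v w = c * m p v w) (h : ConformalToPlane m') : ConformalToPlane m := by
  obtain ⟨φ, h1, h2, h3⟩ := h
  refine ⟨φ, h1, h2, fun z => ?_⟩
  obtain ⟨h4, h5⟩ := h3 z
  rw [hm, hm] at h4
  rw [hm] at h5
  exact ⟨mul_left_cancel₀ hc.ne' h4, (mul_eq_zero.1 h5).resolve_left hc.ne'⟩

/-- Duality of affine spheres: the conormal surface of a complete hyperbolic affine sphere over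
`K` is a complete hyperbolic affine sphere over the dual cone. -/
theorem dual_sphereOver (h : IsSphereOver f K H) (hK : IsRegularCone K) :
    IsSphereOver (nu f) (dualCone K) H⁻¹ where
  sphere := dual_sphere h.sphere
  injective := nu_injective hK h
  complete := by
    have hH : 0 < H ^ 2 := by
      have := h.sphere.neg.ne
      positivity
    exact complete_mul hH (blaschke_nu h.sphere) h.complete
  asymptotic :=
    { subset := by
        rintro _ ⟨p, rfl⟩
        exact nu_mem hK h p
      closed := isClosed_range_nu h hK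
      ray := fun φ hφ => nu_ray hK h hφ
      dist := dual_dist h hK }

theorem planar_of_dual (hK : IsRegularCone K) (hd : SpheresPlanar (dualCone K)) :
    SpheresPlanar K := by
  intro H f hf
  have h1 := hd H⁻¹ (nu f) (dual_sphereOver hf hK)
  have hH : 0 < H ^ 2 := by
    have := hf.sphere.neg.ne
    positivity
  exact conformal_mul hH (blaschke_nu hf.sphere) h1

end Pool.Agent.T2h53.AS
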