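import Mathlib
import Pool.Agent.T2h53.AS.Defs
import Pool.Agent.T2h53.AS.Convex
import Pool.Agent.T2h53.AS.Global

namespace Pool.Agent.T2h53.AS

open Set Filter Topology MeasureTheory

/-! ### A convex profile which is affine near a dense set of points -/

/-- The profile data. -/
structure Profile (g G : ℝ → ℝ) : Prop where
  deriv : ∀ u, HasDerivAt g (G u) u
  cont : Continuous G
  mono : Monotone G
  G0 : G 0 = 0
  G1 : 0 < G 1
  G1' : G 1 ≤ 1
  g0 : g 0 = 0
  dense : Dense {w | ∃ δ > 0, ∀ v, |v - w| < δ → G v = G w}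

lemma exists_profile : ∃ g G : ℝ → ℝ, Profile g G := by
  have hQ : volume (range ((↑) : ℚ → ℝ)) < 1 := by
    rw [(countable_range _).measure_zero]
    exact one_pos
  obtain ⟨U, hQU, hUo, hU⟩ := Set.exists_isOpen_lt_of_lt _ _ hQ
  set χ : ℝ → ℝ := Uᶜ.indicator (fun _ => (1 : ℝ)) with hχ
  have hUm : MeasurableSet U := hUo.measurableSet
  have hχm : Measurable χ := measurable_const.indicator hUm.compl
  have hχ0 : ∀ t, 0 ≤ χ t := fun t => indicator_nonneg (fun _ _ => zero_le_one) t
  have hχ1 : ∀ t, χ t ≤ 1 := fun t => by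
    rw [hχ]
    by_cases ht : t ∈ Uᶜ
    · simp [ht]
    · simp [indicator_of_notMem ht]
  have hint : ∀ a b, IntervalIntegrable χ volume a b := by
    intro a b
    apply (intervalIntegrable_const (c := (1 : ℝ)) (μ := volume) (a := a) (b := b)).mono_fun
      hχm.aestronglyMeasurable
    filter_upwards with t
    rw [Real.norm_of_nonneg (hχ0 t), norm_one]
    exact hχ1 t
  set G : ℝ → ℝ := fun u => ∫ t in (0 : ℝ)..u, χ t with hG
  have hGc : Continuous G := intervalIntegral.continuous_primitive hint 0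
  have hGsub : ∀ u v, G v - G u = ∫ t in u..v, χ t := fun u v =>
    intervalIntegral.integral_interval_sub_left (hint 0 v) (hint 0 u)
  have hGm : Monotone G := by
    intro u v huv
    rw [← sub_nonneg, hGsub]
    exact intervalIntegral.integral_nonneg huv (fun t _ => hχ0 t)
  have hG0 : G 0 = 0 := by simp [hG]
  have hG1 : 0 < G 1 := by
    have e1 : G 1 = (volume (Ioc (0 : ℝ) 1 ∩ Uᶜ)).toReal := by
      rw [hG]
      simp only
      rw [intervalIntegral.integral_of_le zero_le_one, hχ, setIntegral_indicator hUm.compl]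
      simp [Measure.real]
    have h2 : (1 : ENNReal) ≤ volume (Ioc (0 : ℝ) 1 ∩ Uᶜ) + volume U := by
      have h3 : volume (Ioc (0 : ℝ) 1) = 1 := by simp
      rw [← h3]
      refine (measure_mono ?_).trans (measure_union_le _ _)
      intro t ht
      by_cases htU : t ∈ U
      · right; exact htU
      · left; exact ⟨ht, htU⟩
    have h4 : volume (Ioc (0 : ℝ) 1 ∩ Uᶜ) ≠ 0 := by
      intro h0
      rw [h0, zero_add] at h2
      exact absurd hU (not_lt.2 h2)
    have h5 : volume (Ioc (0 : ℝ) 1 ∩ Uᶜ) ≠ ⊤ := by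
      apply ne_top_of_le_ne_top _ (measure_mono inter_subset_left)
      simp
    rw [e1]
    exact ENNReal.toReal_pos h4 h5
  have hG1' : G 1 ≤ 1 := by
    have := intervalIntegral.integral_mono_on (μ := volume) zero_le_one (hint 0 1)
      (intervalIntegrable_const (c := (1 : ℝ))) (fun t _ => hχ1 t)
    simpa using this
  refine ⟨fun u => ∫ t in (0 : ℝ)..u, G t, G, ?_, hGc, hGm, hG0, hG1, hG1', by simp, ?_⟩
  · intro u
    exact intervalIntegral.integral_hasDerivAt_right (hGc.intervalIntegrable _ _)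
      (hGc.stronglyMeasurableAtFilter _ _) hGc.continuousAt
  · have hUd : Dense U := by
      apply Dense.mono hQU
      exact Rat.denseRange_cast
    apply hUd.mono
    intro w hw
    obtain ⟨δ, hδ, hb⟩ := Metric.isOpen_iff.1 hUo w hw
    refine ⟨δ, hδ, fun v hv => ?_⟩
    rw [← sub_eq_zero, hGsub]
    have : ∫ t in w..v, χ t = ∫ t in w..v, (0 : ℝ) := by
      apply intervalIntegral.integral_congr
      intro t ht
      have htU : t ∈ U := by
        apply hb
        rw [Metric.mem_ball, Real.dist_eq]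
        refine lt_of_le_of_lt ?_ hv
        exact abs_sub_left_of_mem_uIcc ht
      simp [hχ, htU]
    rw [this]
    simp

section profile

variable {g G : ℝ → ℝ} (P : Profile g G)

include P

lemma Profile.slope {x y : ℝ} (hxy : x < y) : ∃ c ∈ Ioo x y, g y - g x = (y - x) * G c := by
  obtain ⟨c, hc, hc'⟩ := exists_hasDerivAt_eq_slope g G hxy
    (fun t _ => (P.deriv t).continuousAt.continuousWithinAt) (fun t _ => P.deriv t)
  refine ⟨c, hc, ?_⟩
  have : y - x ≠ 0 := by linarith
  rw [hc']
  field_simp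

lemma Profile.tangent (u x : ℝ) : g u + G u * (x - u) ≤ g x := by
  rcases lt_trichotomy u x with h | h | h
  · obtain ⟨c, hc, hc'⟩ := P.slope h
    have := P.mono hc.1.le
    nlinarith
  · rw [h]; simp
  · obtain ⟨c, hc, hc'⟩ := P.slope h
    have := P.mono hc.2.le
    nlinarith

lemma Profile.cont_g : Continuous g :=
  continuous_iff_continuousAt.2 fun u => (P.deriv u).continuousAt

lemma Profile.g_le {x : ℝ} (h0 : 0 ≤ x) (h1 : x ≤ 1) : g x ≤ 1 := by
  rcases h0.eq_or_lt with h | h
  · rw [← h, P.g0]; exact zero_le_one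
  · obtain ⟨c, hc, hc'⟩ := P.slope h
    have h2 : G c ≤ 1 := (P.mono (hc.2.le.trans h1)).trans P.G1'
    have h3 : 0 ≤ G c := by
      have := P.mono hc.1.le
      rwa [P.G0] at this
    rw [P.g0] at hc'
    nlinarith

lemma Profile.affine {w δ v : ℝ} (h : ∀ v, |v - w| < δ → G v = G w) (hv : |v - w| < δ) :
    g v = g w + G w * (v - w) := by
  have hδ : 0 < δ := (abs_nonneg _).trans_lt hv
  rcases lt_trichotomy w v with h1 | h1 | h1
  · obtain ⟨c, hc, hc'⟩ := P.slope h1
    have : G c = G w := by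
      apply h
      rw [abs_of_pos (by linarith [hc.1])]
      rw [abs_of_pos (by linarith)] at hv
      linarith [hc.2]
    rw [this] at hc'
    linarith
  · rw [h1]; simp
  · obtain ⟨c, hc, hc'⟩ := P.slope h1
    have : G c = G w := by
      apply h
      rw [abs_of_neg (by linarith [hc.2])]
      rw [abs_of_neg (by linarith)] at hv
      linarith [hc.1]
    rw [this] at hc'
    linarith

end profile

/-! ### The cone -/

set_option linter.unusedSectionVars false


/-- Supporting functional of the graph of the profile at `u`. -/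
def sup (g G : ℝ → ℝ) (u : ℝ) : V3 := ![-(G u), 1, u * G u - g u]

/-- The defining functionals of the cone. -/
def Aset (g G : ℝ → ℝ) : Set V3 :=
  {![1, 0, 0], ![-1, 0, 1], ![0, -1, 2]} ∪ (sup g G) '' Icc 0 1

/-- The cone over the region above the graph. -/
def Kc (g G : ℝ → ℝ) : Set V3 := dualCone (Aset g G)

lemma dot_sup (g G : ℝ → ℝ) (u : ℝ) (k : V3) :
    dot (sup g G u) k = k 1 - G u * (k 0 - u * k 2) - g u * k 2 := by
  simp [dot, sup]; ring

lemma mem_Kc {g G : ℝ → ℝ} {k : V3} : k ∈ Kc g G ↔ 0 ≤ k 0 ∧ k 0 ≤ k 2 ∧ k 1 ≤ 2 * k 2 ∧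
    ∀ u ∈ Icc (0 : ℝ) 1, 0 ≤ dot (sup g G u) k := by
  unfold Kc dualCone Aset
  constructor
  · intro h
    refine ⟨?_, ?_, ?_, ?_⟩
    · have := h ![1, 0, 0] (by simp)
      simpa [dot] using this
    · have := h ![-1, 0, 1] (by simp)
      simp [dot] at this
      linarith
    · have := h ![0, -1, 2] (by simp)
      simp [dot] at this
      linarith
    · intro u hu
      exact h _ (Or.inr ⟨u, hu, rfl⟩)
  · rintro ⟨h1, h2, h3, h4⟩ a (ha | ⟨u, hu, rfl⟩)
    · simp only [mem_insert_iff, mem_singleton_iff] at ha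
      rcases ha with rfl | rfl | rfl
      · simpa [dot] using h1
      · simp [dot]; linarith
      · simp [dot]; linarith
    · exact h4 u hu

section cone

variable {g G : ℝ → ℝ} (P : Profile g G)

include P

lemma pt_mem {x y : ℝ} (h0 : 0 ≤ x) (h1 : x ≤ 1) (hy : g x ≤ y) (hy2 : y ≤ 2) :
    (![x, y, 1] : V3) ∈ Kc g G := by
  rw [mem_Kc]
  refine ⟨by simpa using h0, by simpa using h1, by simpa using hy2, fun u hu => ?_⟩
  rw [dot_sup]
  have := P.tangent u x
  simp
  linarith

lemma Kc_nonneg {k : V3} (hk : k ∈ Kc g G) : 0 ≤ k 2 := by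
  obtain ⟨h1, h2, _, _⟩ := mem_Kc.1 hk
  linarith

lemma Kc_pos {k : V3} (hk : k ∈ Kc g G) (hk0 : k ≠ 0) : 0 < k 2 := by
  rcases (Kc_nonneg P hk).lt_or_eq with h | h
  · exact h
  · exfalso
    obtain ⟨h1, h2, h3, h4⟩ := mem_Kc.1 hk
    have h5 := h4 0 (by simp)
    rw [dot_sup, P.G0] at h5
    rw [← h] at h2 h3 h5
    apply hk0
    ext i
    fin_cases i
    · simp; linarith
    · simp at h5 h3 ⊢; linarith
    · simp; linarith

/-- Coordinates of nonzero points of the cone. -/
lemma Kc_coord {k : V3} (hk : k ∈ Kc g G) (hk0 : 0 < k 2) :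
    0 ≤ k 0 / k 2 ∧ k 0 / k 2 ≤ 1 ∧ g (k 0 / k 2) ≤ k 1 / k 2 ∧ k 1 / k 2 ≤ 2 := by
  obtain ⟨h1, h2, h3, h4⟩ := mem_Kc.1 hk
  have hx : k 0 / k 2 ∈ Icc (0 : ℝ) 1 := by
    refine ⟨by positivity, ?_⟩
    rw [div_le_one hk0]; exact h2
  refine ⟨hx.1, hx.2, ?_, ?_⟩
  · have := h4 _ hx
    rw [dot_sup, div_mul_cancel₀ _ hk0.ne', sub_self, mul_zero, sub_zero] at this
    rw [le_div_iff₀ hk0]; linarith
  · rw [div_le_iff₀ hk0]; exact h3

lemma Kc_smul_pt {k : V3} (hk0 : 0 < k 2) :
    k = k 2 • (![k 0 / k 2, k 1 / k 2, 1] : V3) := by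
  ext i
  fin_cases i
  · simp; field_simp
  · simp; field_simp
  · simp

lemma Kc_mem_of_coord {k : V3} (hk0 : 0 < k 2) (h0 : 0 ≤ k 0 / k 2) (h1 : k 0 / k 2 ≤ 1)
    (h2 : g (k 0 / k 2) ≤ k 1 / k 2) (h3 : k 1 / k 2 ≤ 2) : k ∈ Kc g G := by
  rw [Kc_smul_pt P hk0]
  exact smul_mem_dualCone (pt_mem P h0 h1 h2 h3) hk0.le

/-- Strict inequalities give interior points. -/
lemma Kc_interior {k : V3} (hk0 : 0 < k 2) (h0 : 0 < k 0 / k 2) (h1 : k 0 / k 2 < 1)
    (h2 : g (k 0 / k 2) < k 1 / k 2) (h3 : k 1 / k 2 < 2) : k ∈ interior (Kc g G) := by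
  rw [mem_interior_iff_mem_nhds]
  have c0 : ContinuousAt (fun x : V3 => x 0 / x 2) k :=
    (continuous_apply 0).continuousAt.div (continuous_apply 2).continuousAt hk0.ne'
  have c1 : ContinuousAt (fun x : V3 => x 1 / x 2) k :=
    (continuous_apply 1).continuousAt.div (continuous_apply 2).continuousAt hk0.ne'
  have c2 : ContinuousAt (fun x : V3 => g (x 0 / x 2)) k :=
    ContinuousAt.comp (f := fun x : V3 => x 0 / x 2) P.cont_g.continuousAt c0
  have e1 : ∀ᶠ x : V3 in 𝓝 k, 0 < x 2 :=
    (continuous_apply (2 : Fin 3)).continuousAt.eventually (lt_mem_nhds hk0)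
  have e2 : ∀ᶠ x : V3 in 𝓝 k, 0 < x 0 / x 2 := c0.eventually (lt_mem_nhds h0)
  have e3 : ∀ᶠ x : V3 in 𝓝 k, x 0 / x 2 < 1 := c0.eventually (gt_mem_nhds h1)
  have e4 : ∀ᶠ x : V3 in 𝓝 k, x 1 / x 2 < 2 := c1.eventually (gt_mem_nhds h3)
  have e5 : ∀ᶠ x : V3 in 𝓝 k, g (x 0 / x 2) < x 1 / x 2 := c2.eventually_lt c1 h2
  filter_upwards [e1, e2, e3, e4, e5] with x a b c d e
  exact Kc_mem_of_coord P a b.le c.le e.le d.le

lemma Kc_solid : (![1 / 2, 3 / 2, 1] : V3) ∈ interior (Kc g G) := by
  have h := P.g_le (x := 1 / 2) (by norm_num) (by norm_num)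
  apply Kc_interior P
  · simp
  · simp
  · simp; norm_num
  · simp; norm_num at h; linarith
  · simp; norm_num

omit P in
lemma eq_zero_of_forall {a b : ℝ} (h : ∀ t : ℝ, 0 ≤ a + t * b) : b = 0 := by
  by_contra hb
  have := h (-(a + 1) / b)
  rw [div_mul_cancel₀ _ hb] at this
  linarith

lemma Kc_regular : IsRegularCone (Kc g G) where
  closed := isClosed_dualCone _
  convex := convex_dualCone _
  cone := fun _ hx _ ht => smul_mem_dualCone hx ht
  solid := ⟨_, Kc_solid P⟩
  noLine := by
    intro x v h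
    have h0 : v 0 = 0 := by
      apply eq_zero_of_forall (a := x 0)
      intro t
      have := (mem_Kc.1 (h t)).1
      simpa using this
    have h2 : v 2 = 0 := by
      apply eq_zero_of_forall (a := x 2)
      intro t
      have := Kc_nonneg P (h t)
      simpa using this
    have h1 : -v 1 = 0 := by
      apply eq_zero_of_forall (a := 2 * x 2 - x 1)
      intro t
      have := (mem_Kc.1 (h t)).2.2.1
      simp [h2] at this
      linarith
    ext i
    fin_cases i
    · exact h0
    · simpa using h1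
    · exact h2

lemma Kd_regular : IsRegularCone (dualCone (Kc g G)) where
  closed := isClosed_dualCone _
  convex := convex_dualCone _
  cone := fun _ hx _ ht => smul_mem_dualCone hx ht
  solid := by
    refine ⟨![0, 0, 1], ?_⟩
    apply mem_interior_dualCone (Kc_regular P).closed (Kc_regular P).cone
    intro x hx hx0
    have := Kc_pos P hx hx0
    simpa [dot] using this
  noLine := by
    intro x v h
    have key : ∀ k ∈ Kc g G, dot k v = 0 := by
      intro k hk
      apply eq_zero_of_forall (a := dot k x)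
      intro t
      have := h t k hk
      rwa [dot_add, dot_smul] at this
    have m1 := key _ (pt_mem P (x := 0) (y := 0) le_rfl zero_le_one (by rw [P.g0])
      (by norm_num))
    have m2 := key _ (pt_mem P (x := 0) (y := 1) le_rfl zero_le_one (by rw [P.g0]; norm_num)
      (by norm_num))
    have m3 := key _ (pt_mem P (x := 1) (y := 1) zero_le_one le_rfl
      (P.g_le zero_le_one le_rfl) (by norm_num))
    simp [dot] at m1 m2 m3
    have h1 : v 1 = 0 := by linarith
    have h0 : v 0 = 0 := by linarith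
    ext i
    fin_cases i
    · exact h0
    · exact h1
    · exact m1

omit P in
/-- An exposed 2-dimensional face. -/
lemma exposed_face {K : Set V3} (hK : Convex ℝ K) {a k1 k2 : V3} (ha : a ≠ 0)
    (hnn : ∀ k ∈ K, 0 ≤ dot a k) (h1 : k1 ∈ K) (h2 : k2 ∈ K) (e1 : dot a k1 = 0)
    (e2 : dot a k2 = 0) (hli : LinearIndependent ℝ ![k1, k2]) :
    IsFace {k | k ∈ K ∧ dot a k = 0} K ∧
      Module.finrank ℝ (Submodule.span ℝ {k | k ∈ K ∧ dot a k = 0}) = 2 := by
  constructor
  · refine ⟨fun k hk => hk.1, ?_, ?_⟩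
    · intro x hx y hy s t hs ht hst
      refine ⟨hK hx.1 hy.1 hs ht hst, ?_⟩
      rw [dot_add, dot_smul, dot_smul, hx.2, hy.2]; ring
    · rintro x hx y hy ⟨_, hm⟩
      rw [dot_smul, dot_add] at hm
      have := hnn x hx
      have := hnn y hy
      refine ⟨⟨hx, by linarith⟩, ⟨hy, by linarith⟩⟩
  · set F := {k | k ∈ K ∧ dot a k = 0} with hF
    have hne : Submodule.span ℝ F ≠ ⊤ := by
      intro htop
      let L : V3 →ₗ[ℝ] ℝ :=
        { toFun := fun x => dot a x
          map_add' := fun x y => dot_add a x y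
          map_smul' := fun t x => by simp [dot_smul] }
      have hle : Submodule.span ℝ F ≤ LinearMap.ker L := by
        rw [Submodule.span_le]
        intro k hk
        exact hk.2
      rw [htop] at hle
      have : a ∈ LinearMap.ker L := hle trivial
      have h0 : dot a a = 0 := this
      exact (dot_self_pos ha).ne' h0
    have hlt : Module.finrank ℝ (Submodule.span ℝ F) < 3 := by
      have := Submodule.finrank_lt hne
      simpa using this
    have hge : 2 ≤ Module.finrank ℝ (Submodule.span ℝ F) := by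
      have h3 := finrank_span_eq_card hli
      have h4 : Submodule.span ℝ (range ![k1, k2]) ≤ Submodule.span ℝ F := by
        apply Submodule.span_mono
        rintro _ ⟨i, rfl⟩
        fin_cases i
        · exact ⟨h1, e1⟩
        · exact ⟨h2, e2⟩
      have h5 := Submodule.finrank_mono h4
      rw [h3] at h5
      simpa using h5
    omega

omit P in
lemma indep_pair {k1 k2 : V3} (h : ∀ s t : ℝ, s • k1 + t • k2 = 0 → s = 0 ∧ t = 0) :
    LinearIndependent ℝ ![k1, k2] :=
  LinearIndependent.pair_iff.2 h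

lemma sup_nonneg {u : ℝ} (hu : u ∈ Icc (0 : ℝ) 1) {k : V3} (hk : k ∈ Kc g G) :
    0 ≤ dot (sup g G u) k := (mem_Kc.1 hk).2.2.2 u hu

omit P in
lemma mem_face_union {F K : Set V3} (hF : IsFace F K)
    (hr : Module.finrank ℝ (Submodule.span ℝ F) = 2) {x : V3} (hx : x ∈ F) :
    x ∈ ⋃₀ {F : Set V3 | IsFace F K ∧ Module.finrank ℝ (Submodule.span ℝ F) = 2} :=
  ⟨F, ⟨hF, hr⟩, hx⟩

/-- Points of the cone with vanishing first coordinate lie in a 2-dimensional face. -/
lemma face_left {k : V3} (hk : k ∈ Kc g G) (h0 : k 0 = 0) :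
    k ∈ ⋃₀ {F : Set V3 | IsFace F (Kc g G) ∧ Module.finrank ℝ (Submodule.span ℝ F) = 2} := by
  have h := exposed_face (K := Kc g G) (Kc_regular P).convex (a := ![1, 0, 0])
    (k1 := ![0, 0, 1]) (k2 := ![0, 1, 1]) (by intro h; have := congrFun h 0; simp at this)
    (by intro k hk; have := (mem_Kc.1 hk).1; simpa [dot] using this)
    (pt_mem P le_rfl zero_le_one (by rw [P.g0]) (by norm_num))
    (pt_mem P le_rfl zero_le_one (by rw [P.g0]; norm_num) (by norm_num))
    (by simp [dot]) (by simp [dot])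
    (indep_pair (by
      intro s t hst
      have h1 := congrFun hst 1
      have h2 := congrFun hst 2
      simp at h1 h2
      exact ⟨by linarith, h1⟩))
  exact mem_face_union h.1 h.2 ⟨hk, by simpa [dot] using h0⟩

lemma face_right {k : V3} (hk : k ∈ Kc g G) (h0 : k 0 = k 2) :
    k ∈ ⋃₀ {F : Set V3 | IsFace F (Kc g G) ∧ Module.finrank ℝ (Submodule.span ℝ F) = 2} := by
  have h := exposed_face (K := Kc g G) (Kc_regular P).convex (a := ![-1, 0, 1])
    (k1 := ![1, 1, 1]) (k2 := ![1, 2, 1]) (by intro h; have := congrFun h 0; simp at this)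
    (by intro k hk; have := (mem_Kc.1 hk).2.1; simp [dot]; linarith)
    (pt_mem P zero_le_one le_rfl (P.g_le zero_le_one le_rfl) (by norm_num))
    (pt_mem P zero_le_one le_rfl ((P.g_le zero_le_one le_rfl).trans (by norm_num)) le_rfl)
    (by simp [dot]) (by simp [dot])
    (indep_pair (by
      intro s t hst
      have h1 := congrFun hst 1
      have h2 := congrFun hst 2
      simp at h1 h2
      exact ⟨by linarith, by linarith⟩))
  exact mem_face_union h.1 h.2 ⟨hk, by simp [dot]; linarith⟩

lemma face_top {k : V3} (hk : k ∈ Kc g G) (h0 : k 1 = 2 * k 2) :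
    k ∈ ⋃₀ {F : Set V3 | IsFace F (Kc g G) ∧ Module.finrank ℝ (Submodule.span ℝ F) = 2} := by
  have h := exposed_face (K := Kc g G) (Kc_regular P).convex (a := ![0, -1, 2])
    (k1 := ![0, 2, 1]) (k2 := ![1, 2, 1]) (by intro h; have := congrFun h 1; simp at this)
    (by intro k hk; have := (mem_Kc.1 hk).2.2.1; simp [dot]; linarith)
    (pt_mem P le_rfl zero_le_one (by rw [P.g0]; norm_num) le_rfl)
    (pt_mem P zero_le_one le_rfl ((P.g_le zero_le_one le_rfl).trans (by norm_num)) le_rfl)
    (by simp [dot]) (by simp [dot])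
    (indep_pair (by
      intro s t hst
      have h1 := congrFun hst 0
      have h2 := congrFun hst 2
      simp at h1 h2
      exact ⟨by linarith, by linarith⟩))
  exact mem_face_union h.1 h.2 ⟨hk, by simp [dot]; linarith⟩

/-- Points over flat parts of the profile lie in 2-dimensional faces. -/
lemma face_flat {w z δ : ℝ} (hw : w ∈ Ioo (0 : ℝ) 1) (hz : 0 ≤ z) (hδ : 0 < δ)
    (hloc : ∀ v, |v - w| < δ → G v = G w) :
    z • (![w, g w, 1] : V3) ∈
      ⋃₀ {F : Set V3 | IsFace F (Kc g G) ∧ Module.finrank ℝ (Submodule.span ℝ F) = 2} := by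
  set η := min (δ / 2) (1 - w) with hη
  have hη0 : 0 < η := by
    have := hw.2
    have : 0 < 1 - w := by linarith
    positivity
  have hη1 : η ≤ δ / 2 := min_le_left _ _
  have hη2 : η ≤ 1 - w := min_le_right _ _
  have hg : g (w + η) = g w + G w * η := by
    have := P.affine hloc (v := w + η) (by rw [add_sub_cancel_left, abs_of_pos hη0]; linarith)
    rwa [add_sub_cancel_left] at this
  have hw0 := hw.1.le
  have hw1 := hw.2.le
  have m1 := pt_mem P hw0 hw1 le_rfl ((P.g_le hw0 hw1).trans (by norm_num))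
  have hw2 : w + η ≤ 1 := by linarith
  have m2 := pt_mem P (x := w + η) (by linarith) hw2 le_rfl
    ((P.g_le (by linarith) hw2).trans (by norm_num))
  have h := exposed_face (K := Kc g G) (Kc_regular P).convex (a := sup g G w)
    (k1 := ![w, g w, 1]) (k2 := ![w + η, g (w + η), 1])
    (by intro h; have := congrFun h 1; simp [sup] at this)
    (fun k hk => sup_nonneg P ⟨hw0, hw1⟩ hk) m1 m2
    (by rw [dot_sup]; simp) (by rw [dot_sup, hg]; simp)
    (indep_pair (by
      intro s t hst
      have h1 := congrFun hst 0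
      have h2 := congrFun hst 2
      simp at h1 h2
      have h3 : t * η = 0 := by
        have : s = -t := by linarith
        rw [this] at h1
        linarith
      have h4 : t = 0 := (mul_eq_zero.1 h3).resolve_right hη0.ne'
      exact ⟨by linarith, h4⟩))
  refine mem_face_union h.1 h.2 ⟨?_, ?_⟩
  · exact smul_mem_dualCone m1 hz
  · rw [dot_smul, dot_sup]; simp

/-- Condition (ii) holds for the cone. -/
lemma Kc_facesDense : FacesDense (Kc g G) := by
  intro k hk
  have hkK : k ∈ Kc g G := by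
    have := hk.1
    rwa [(Kc_regular P).closed.closure_eq] at this
  by_cases hk0 : k = 0
  · apply _root_.subset_closure
    exact face_left P hkK (by rw [hk0]; rfl)
  have hz := Kc_pos P hkK hk0
  obtain ⟨h0, h1, h2, h3⟩ := Kc_coord P hkK hz
  by_cases c0 : k 0 / k 2 = 0
  · apply _root_.subset_closure
    apply face_left P hkK
    rcases div_eq_zero_iff.1 c0 with h | h
    · exact h
    · exact absurd h hz.ne'
  by_cases c1 : k 0 / k 2 = 1
  · apply _root_.subset_closure
    apply face_right P hkK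
    rwa [div_eq_one_iff_eq hz.ne'] at c1
  by_cases c3 : k 1 / k 2 = 2
  · apply _root_.subset_closure
    apply face_top P hkK
    rwa [div_eq_iff hz.ne'] at c3
  by_cases c2 : g (k 0 / k 2) = k 1 / k 2
  · -- approximate by flat parts
    set x := k 0 / k 2 with hx
    have hx0 : 0 < x := lt_of_le_of_ne h0 (Ne.symm c0)
    have hx1 : x < 1 := lt_of_le_of_ne h1 c1
    have hcl : x ∈ closure ({w | ∃ δ > 0, ∀ v, |v - w| < δ → G v = G w} ∩ Ioo 0 1) := by
      have := P.dense.open_subset_closure_inter (isOpen_Ioo (a := (0 : ℝ)) (b := 1))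
      have h := this ⟨hx0, hx1⟩
      rwa [inter_comm] at h
    have hcont : Continuous (fun w : ℝ => k 2 • (![w, g w, 1] : V3)) := by
      have hpt : Continuous (fun w : ℝ => (![w, g w, 1] : V3)) := by
        rw [continuous_pi_iff]
        intro i
        fin_cases i
        · exact continuous_id
        · exact P.cont_g
        · exact continuous_const
      exact (continuous_const (y := k 2)).smul hpt
    have hkx : k = k 2 • (![x, g x, 1] : V3) := by
      rw [c2]; exact Kc_smul_pt P hz
    rw [hkx]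
    have hmaps : MapsTo (fun w : ℝ => k 2 • (![w, g w, 1] : V3))
        ({w | ∃ δ > 0, ∀ v, |v - w| < δ → G v = G w} ∩ Ioo 0 1)
        (⋃₀ {F : Set V3 | IsFace F (Kc g G) ∧ Module.finrank ℝ (Submodule.span ℝ F) = 2}) := by
      rintro w ⟨⟨δ, hδ, hloc⟩, hw⟩
      exact face_flat P hw hz.le hδ hloc
    exact hmaps.closure hcont hcl
  · exfalso
    apply hk.2
    exact Kc_interior P hz (lt_of_le_of_ne h0 (Ne.symm c0)) (lt_of_le_of_ne h1 c1)
      (lt_of_le_of_ne h2 c2) (lt_of_le_of_ne h3 c3)

omit P in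
/-- One-sided derivative tests. -/
lemma deriv_sign {k : ℝ → ℝ} {k' x : ℝ} (hd : HasDerivAt k k' x)
    (hk : ∀ y ∈ Icc (0 : ℝ) 1, 0 ≤ k y) (hx : k x = 0) (hx0 : 0 ≤ x) (hx1 : x ≤ 1) :
    (x < 1 → 0 ≤ k') ∧ (0 < x → k' ≤ 0) := by
  constructor
  · intro h1
    have h2 := (hasDerivAt_iff_tendsto_slope_left_right.1 hd).2
    apply ge_of_tendsto h2
    have h3 : Ioo x 1 ∈ 𝓝[>] x := Ioo_mem_nhdsGT h1
    filter_upwards [h3] with y hy
    rw [slope_def_field, hx, sub_zero]
    exact div_nonneg (hk y ⟨by linarith [hy.1], hy.2.le⟩) (by linarith [hy.1])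
  · intro h1
    have h2 := (hasDerivAt_iff_tendsto_slope_left_right.1 hd).1
    apply le_of_tendsto h2
    have h3 : Ioo 0 x ∈ 𝓝[<] x := Ioo_mem_nhdsLT h1
    filter_upwards [h3] with y hy
    rw [slope_def_field, hx, sub_zero]
    exact div_nonpos_of_nonneg_of_nonpos (hk y ⟨hy.1.le, by linarith [hy.2]⟩) (by linarith [hy.2])

/-- Functionals in the dual cone vanishing at a graph point over an interior parameter are
multiples of the supporting functional. -/
lemma eq_sup {φ : V3} (hφ : φ ∈ dualCone (Kc g G)) {x : ℝ} (hx0 : 0 < x) (hx1 : x < 1)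
    (hz : φ 0 * x + φ 1 * g x + φ 2 = 0) : φ = φ 1 • sup g G x := by
  have hd : HasDerivAt (fun y => φ 0 * y + φ 1 * g y + φ 2) (φ 0 + φ 1 * G x) x := by
    have := (((hasDerivAt_id x).const_mul (φ 0)).add ((P.deriv x).const_mul (φ 1))).add_const (φ 2)
    simpa using this
  have hnn : ∀ y ∈ Icc (0 : ℝ) 1, 0 ≤ φ 0 * y + φ 1 * g y + φ 2 := by
    intro y hy
    have := hφ _ (pt_mem P hy.1 hy.2 le_rfl ((P.g_le hy.1 hy.2).trans (by norm_num)))
    simp [dot] at this
    linarith
  obtain ⟨h1, h2⟩ := deriv_sign hd hnn hz hx0.le hx1.le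
  have h3 : φ 0 + φ 1 * G x = 0 := le_antisymm (h2 hx0) (h1 hx1)
  ext i
  fin_cases i
  · simp [sup]; linarith
  · simp [sup]
  · simp [sup]
    have : φ 0 = -(φ 1 * G x) := by linarith
    rw [this] at hz
    linarith

/-- Condition (ii) fails for the dual cone. -/
lemma Kd_not_facesDense : ¬ FacesDense (dualCone (Kc g G)) := by
  intro hdense
  -- a parameter with intermediate slope
  obtain ⟨u0, hu0, hs⟩ : ∃ u ∈ Icc (0 : ℝ) 1, G u = G 1 / 2 := by
    have := intermediate_value_Icc (zero_le_one' ℝ) P.cont.continuousOn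
    have hm : G 1 / 2 ∈ Icc (G 0) (G 1) := by
      rw [P.G0]
      have := P.G1
      constructor <;> linarith
    obtain ⟨u, hu, hu'⟩ := this hm
    exact ⟨u, hu, hu'⟩
  set φ0 := sup g G u0 with hφ0
  have hφK : φ0 ∈ dualCone (Kc g G) := by
    intro k hk
    rw [dot_comm]
    exact sup_nonneg P hu0 hk
  have hfr : φ0 ∈ frontier (dualCone (Kc g G)) := by
    refine ⟨_root_.subset_closure hφK, fun hint => ?_⟩
    have hk := pt_mem P hu0.1 hu0.2 le_rfl ((P.g_le hu0.1 hu0.2).trans (by norm_num))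
    have := dot_pos_of_mem_interior hint hk (by
      intro h0
      have := congrFun h0 2
      simp at this)
    rw [hφ0, dot_sup] at this
    simp at this
  have hcl := hdense φ0 hfr
  set N : Set V3 := {φ | 0 < φ 1 ∧ 0 < -φ 0 ∧ -φ 0 < G 1 * φ 1} with hN
  have hNo : IsOpen N := by
    have c0 : Continuous fun φ : V3 => φ 0 := continuous_apply 0
    have c1 : Continuous fun φ : V3 => φ 1 := continuous_apply 1
    exact (isOpen_lt continuous_const c1).inter
      ((isOpen_lt continuous_const c0.neg).inter (isOpen_lt c0.neg (continuous_const.mul c1)))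
  have hφN : φ0 ∈ N := by
    have := P.G1
    refine ⟨?_, ?_, ?_⟩
    · simp [hφ0, sup]
    · simp [hφ0, sup, hs, this]
    · simp [hφ0, sup, hs, this]
  obtain ⟨φ, hφN', F, ⟨hF, hrank⟩, hφF⟩ := mem_closure_iff.1 hcl N hNo hφN
  obtain ⟨hp1, hp2, hp3⟩ := hφN'
  -- a second functional in the face
  have hex : ∃ ψ ∈ F, ψ ∉ Submodule.span ℝ {φ} := by
    by_contra hno
    push Not at hno
    have hle : Submodule.span ℝ F ≤ Submodule.span ℝ {φ} := by
      rw [Submodule.span_le]
      exact hno
    have h1 := Submodule.finrank_mono hle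
    have h2 := finrank_span_le_card (R := ℝ) ({φ} : Set V3)
    simp at h2
    omega
  obtain ⟨ψ, hψF, hψ⟩ := hex
  have hmid : (1 / 2 : ℝ) • φ + (1 / 2 : ℝ) • ψ ∈ F :=
    hF.convex hφF hψF (by norm_num) (by norm_num) (by norm_num)
  -- the midpoint is not an interior point
  have hnint : (1 / 2 : ℝ) • φ + (1 / 2 : ℝ) • ψ ∉ interior (dualCone (Kc g G)) := by
    intro hint
    set ω := (1 / 2 : ℝ) • φ + (1 / 2 : ℝ) • ψ with hω
    obtain ⟨ε, hε, hb⟩ := Metric.isOpen_iff.1 isOpen_interior _ hint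
    have htop : Submodule.span ℝ F = ⊤ := by
      rw [eq_top_iff]
      intro y _
      set s := ε / (2 * (‖y‖ + 1)) with hs'
      have hyn := norm_nonneg y
      have hs0 : 0 < s := by positivity
      have hsy : ‖s • y‖ < ε := by
        rw [norm_smul, Real.norm_eq_abs, abs_of_pos hs0, hs']
        rw [div_mul_eq_mul_div, div_lt_iff₀ (by positivity)]
        nlinarith
      have hplus : ω + s • y ∈ dualCone (Kc g G) := by
        apply interior_subset
        apply hb
        rw [Metric.mem_ball, dist_eq_norm, add_sub_cancel_left]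
        exact hsy
      have hminus : ω - s • y ∈ dualCone (Kc g G) := by
        apply interior_subset
        apply hb
        rw [Metric.mem_ball, dist_eq_norm]
        have : ω - s • y - ω = -(s • y) := by abel
        rw [this, norm_neg]
        exact hsy
      have hmid' : (1 / 2 : ℝ) • ((ω + s • y) + (ω - s • y)) ∈ F := by
        have : (1 / 2 : ℝ) • ((ω + s • y) + (ω - s • y)) = ω := by
          rw [add_add_sub_cancel, ← two_smul ℝ ω, smul_smul]
          norm_num
        rw [this]
        exact hmid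
      have h1 := (hF.extreme _ hplus _ hminus hmid').1
      have h2 : s • y = (ω + s • y) - ω := by abel
      have h3 : s • y ∈ Submodule.span ℝ F := by
        rw [h2]
        exact Submodule.sub_mem _ (Submodule.subset_span h1) (Submodule.subset_span hmid)
      have h4 : y = s⁻¹ • (s • y) := by
        rw [smul_smul, inv_mul_cancel₀ hs0.ne', one_smul]
      rw [h4]
      exact Submodule.smul_mem _ _ h3
    rw [htop] at hrank
    simp at hrank
  rw [mem_interior_dualCone_iff (Kc_regular P).closed (Kc_regular P).cone] at hnint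
  push Not at hnint
  obtain ⟨k, hk, hk0, hle⟩ := hnint
  have a1 : 0 ≤ dot φ k := by
    rw [dot_comm]; exact hF.subset hφF k hk
  have a2 : 0 ≤ dot ψ k := by
    rw [dot_comm]; exact hF.subset hψF k hk
  rw [add_dot, smul_dot, smul_dot] at hle
  have a3 : dot φ k = 0 := by linarith
  have a4 : dot ψ k = 0 := by linarith
  have hz := Kc_pos P hk hk0
  obtain ⟨h0, h1, h2, h3⟩ := Kc_coord P hk hz
  have hkx := Kc_smul_pt P hz
  set x := k 0 / k 2 with hx
  set y := k 1 / k 2 with hy
  rw [hkx, dot_smul] at a3 a4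
  have a5 : φ 0 * x + φ 1 * y + φ 2 = 0 := by
    have := (mul_eq_zero.1 a3).resolve_left hz.ne'
    simpa [dot] using this
  have a6 : ψ 0 * x + ψ 1 * y + ψ 2 = 0 := by
    have := (mul_eq_zero.1 a4).resolve_left hz.ne'
    simpa [dot] using this
  have hnn : ∀ w ∈ Icc (0 : ℝ) 1, 0 ≤ φ 0 * w + φ 1 * g w + φ 2 := by
    intro w hw
    have := hF.subset hφF _ (pt_mem P hw.1 hw.2 le_rfl ((P.g_le hw.1 hw.2).trans (by norm_num)))
    simp [dot] at this
    linarith
  have a7 : y = g x := by
    have := hnn x ⟨h0, h1⟩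
    apply le_antisymm _ h2
    by_contra hlt
    push Not at hlt
    nlinarith
  rw [a7] at a5 a6
  have hd : HasDerivAt (fun y => φ 0 * y + φ 1 * g y + φ 2) (φ 0 + φ 1 * G x) x := by
    have := (((hasDerivAt_id x).const_mul (φ 0)).add ((P.deriv x).const_mul (φ 1))).add_const (φ 2)
    simpa using this
  obtain ⟨b1, b2⟩ := deriv_sign hd hnn a5 h0 h1
  have hx0 : 0 < x := by
    rcases h0.lt_or_eq with h | h
    · exact h
    · exfalso
      rw [← h, P.G0] at b1
      have := b1 one_pos
      linarith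
  have hx1 : x < 1 := by
    rcases h1.lt_or_eq with h | h
    · exact h
    · exfalso
      rw [h] at b2
      have := b2 one_pos
      linarith
  have c1 := eq_sup P (hF.subset hφF) hx0 hx1 a5
  have c2 := eq_sup P (hF.subset hψF) hx0 hx1 a6
  apply hψ
  rw [Submodule.mem_span_singleton]
  refine ⟨ψ 1 / φ 1, ?_⟩
  rw [c2]
  conv_lhs => rw [c1]
  rw [smul_smul]
  congr 1
  simp [sup]
  field_simp

end cone

end Pool.Agent.T2h53.AS
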